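import Mathlib
import Pool.Agent.H506R3.MagB.M1
import Pool.Agent.Helper31.Bernstein

set_option autoImplicit false

/-!
Scalar facts: the sine representation of `exp (-r √λ)` by resolvents, and the representation of
`exp (-s x^β)` (`0 < β ≤ 1`) as a mixture of exponentials.
-/

namespace Pool.Agent.R853.Avg

open MeasureTheory Set Filter Topology
open scoped unitInterval
open Pool.Agent.H506R3.MagB (uu uu_ft uu_int uu_pos uu_cont ex ex_re norm_ex ex_cont)
open Pool.Agent.Helper31 (CMChain bernstein)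

lemma cos_int (x : ℝ) (hx : 0 < x) (r : ℝ) :
    ∫ q : ℝ, Real.cos (q * r) * uu x q = Real.pi * x * Real.exp (-(x * |r|)) := by
  have h := uu_ft x hx r
  have hint : Integrable (fun s : ℝ => ex (s * r) * ((uu x s : ℝ) : ℂ)) := by
    refine (uu_int x hx).mono' ?_ ?_
    · refine Continuous.aestronglyMeasurable ?_
      exact (ex_cont.comp (by fun_prop)).mul (Complex.continuous_ofReal.comp (uu_cont x))
    · refine Eventually.of_forall fun s => ?_
      rw [norm_mul, norm_ex, one_mul, Complex.norm_real, Real.norm_eq_abs,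
        abs_of_pos (uu_pos x s)]
  have h2 := Complex.reCLM.integral_comp_comm hint
  rw [h] at h2
  simp only [Complex.reCLM_apply, Complex.ofReal_re] at h2
  rw [← h2]
  refine integral_congr_ae (Eventually.of_forall fun q => ?_)
  simp only [Complex.mul_re, Complex.ofReal_re, Complex.ofReal_im, mul_zero, sub_zero, ex_re]

/-- `∫_0^r cos (q t) dt`, i.e. `sin (q r) / q`. -/
noncomputable def sk (r q : ℝ) : ℝ := ∫ t in (0:ℝ)..r, Real.cos (q * t)

lemma sk_abs (r q : ℝ) (hr : 0 ≤ r) : |sk r q| ≤ r := by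
  unfold sk
  have h := intervalIntegral.norm_integral_le_of_norm_le_const (a := (0:ℝ)) (b := r) (C := 1)
    (f := fun t => Real.cos (q * t)) (fun t _ => by
      rw [Real.norm_eq_abs]; exact Real.abs_cos_le_one _)
  rw [Real.norm_eq_abs, sub_zero, one_mul, abs_of_nonneg hr] at h
  exact h

lemma sk_mul (r q : ℝ) : q * sk r q = Real.sin (q * r) := by
  unfold sk
  by_cases hq : q = 0
  · subst hq; simp
  · rw [intervalIntegral.integral_comp_mul_left (fun t => Real.cos t) hq, integral_cos]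
    simp [hq]

lemma sk_cont (r : ℝ) : Continuous (sk r) := by
  unfold sk
  apply intervalIntegral.continuous_parametric_intervalIntegral_of_continuous' (by fun_prop)

lemma uu_le_one (x q : ℝ) : uu x q ≤ 1 := by
  unfold uu
  apply inv_le_one_of_one_le₀
  have : 0 ≤ q ^ 2 / x ^ 2 := by positivity
  linarith

lemma sin_int (x : ℝ) (hx : 0 < x) (r : ℝ) (hr : 0 ≤ r) :
    ∫ q : ℝ, sk r q * uu x q = Real.pi * (1 - Real.exp (-(x * r))) := by
  have h1 : ∀ q : ℝ, sk r q * uu x q = ∫ t in Ioc 0 r, Real.cos (q * t) * uu x q := by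
    intro q
    unfold sk
    rw [intervalIntegral.integral_of_le hr, integral_mul_const]
  simp_rw [h1]
  have hint : Integrable (Function.uncurry fun (q t : ℝ) => Real.cos (q * t) * uu x q)
      ((volume : Measure ℝ).prod (volume.restrict (Ioc 0 r))) := by
    have h2 : Integrable (fun p : ℝ × ℝ => uu x p.1)
        ((volume : Measure ℝ).prod (volume.restrict (Ioc 0 r))) := (uu_int x hx).comp_fst _
    refine h2.mono' ?_ ?_
    · refine Continuous.aestronglyMeasurable ?_
      have := uu_cont x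
      simp only [Function.uncurry_def]
      fun_prop
    · refine Eventually.of_forall fun p => ?_
      simp only [Function.uncurry_def]
      rw [norm_mul, Real.norm_eq_abs, Real.norm_eq_abs, abs_of_pos (uu_pos x p.1)]
      have := Real.abs_cos_le_one (p.1 * p.2)
      have := uu_pos x p.1
      nlinarith
  rw [integral_integral_swap hint]
  simp_rw [cos_int x hx]
  rw [← intervalIntegral.integral_of_le hr]
  have h3 : ∫ t in (0:ℝ)..r, Real.pi * x * Real.exp (-(x * |t|)) =
      ∫ t in (0:ℝ)..r, Real.pi * (x * Real.exp (-(x * t))) := by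
    apply intervalIntegral.integral_congr
    intro t ht
    rw [uIcc_of_le hr] at ht
    simp only
    rw [abs_of_nonneg ht.1]
    ring
  rw [h3, intervalIntegral.integral_const_mul]
  congr 1
  have h4 : ∀ t ∈ uIcc 0 r, HasDerivAt (fun t : ℝ => -Real.exp (-(x * t))) (x * Real.exp (-(x * t))) t := by
    intro t _
    have := (((hasDerivAt_id t).const_mul x).neg.exp).neg
    refine this.congr_deriv ?_
    simp
    ring
  rw [intervalIntegral.integral_eq_sub_of_hasDerivAt h4 (by
    apply Continuous.intervalIntegrable; fun_prop)]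
  simp
  ring

/-! ### Completely monotone chains for `exp (-s x^β)` -/

inductive PP : (ℝ → ℝ) → Prop
  | zero : PP (fun _ => 0)
  | add (c a : ℝ) (P : ℝ → ℝ) (hc : 0 ≤ c) (ha : 0 ≤ a) (hP : PP P) :
      PP (fun x => c * x ^ (-a) + P x)

lemma PP.nonneg {P : ℝ → ℝ} (h : PP P) {x : ℝ} (hx : 0 < x) : 0 ≤ P x := by
  induction h with
  | zero => exact le_rfl
  | add c a P hc ha hP ih =>
    have : 0 ≤ x ^ (-a) := Real.rpow_nonneg hx.le _
    positivity

lemma PP.plus {P Q : ℝ → ℝ} (h : PP P) (hQ : PP Q) : ∃ R, PP R ∧ ∀ x, R x = P x + Q x := by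
  induction h with
  | zero => exact ⟨Q, hQ, fun x => by simp⟩
  | add c a P hc ha hP ih =>
    obtain ⟨R, hR, h⟩ := ih
    exact ⟨_, PP.add c a R hc ha hR, fun x => by rw [h]; ring⟩

lemma PP.mulpow {P : ℝ → ℝ} (h : PP P) {k b : ℝ} (hk : 0 ≤ k) (hb : 0 ≤ b) :
    ∃ R, PP R ∧ ∀ x, 0 < x → R x = k * x ^ (-b) * P x := by
  induction h with
  | zero => exact ⟨_, PP.zero, fun x _ => by simp⟩
  | add c a P hc ha hP ih =>
    obtain ⟨R, hR, h⟩ := ih
    refine ⟨_, PP.add (k * c) (b + a) R (by positivity) (by positivity) hR, fun x hx => ?_⟩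
    rw [h x hx, neg_add, Real.rpow_add hx]
    ring

lemma PP.deriv {P : ℝ → ℝ} (h : PP P) :
    ∃ R, PP R ∧ ∀ x, 0 < x → HasDerivAt P (-(R x)) x := by
  induction h with
  | zero => exact ⟨_, PP.zero, fun x _ => by simpa using hasDerivAt_const x (0:ℝ)⟩
  | add c a P hc ha hP ih =>
    obtain ⟨R, hR, h⟩ := ih
    refine ⟨_, PP.add (c * a) (a + 1) R (by positivity) (by positivity) hR, fun x hx => ?_⟩
    have h1 := (Real.hasDerivAt_rpow_const (x := x) (p := -a) (Or.inl hx.ne')).const_mul c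
    refine (h1.add (h x hx)).congr_deriv ?_
    have e : -(a + 1) = -a - 1 := by ring
    rw [e]
    ring

lemma chain_of_closed' (S : Set (ℝ → ℝ))
    (hS : ∀ G ∈ S, (∀ x, 0 < x → 0 ≤ G x) ∧ ∃ G' ∈ S, ∀ x, 0 < x → HasDerivAt G (-(G' x)) x)
    {F : ℝ → ℝ} (hF : F ∈ S) : ∃ Fc : ℕ → ℝ → ℝ, CMChain Fc ∧ Fc 0 = F := by
  have h1 : ∀ G : S, ∃ G' : S, ∀ x, 0 < x → HasDerivAt (G : ℝ → ℝ) (-((G' : ℝ → ℝ) x)) x := by
    intro G
    obtain ⟨-, G', hG', h⟩ := hS G G.2
    exact ⟨⟨G', hG'⟩, h⟩
  choose D hD using h1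
  let Fc : ℕ → S := fun n => D^[n] ⟨F, hF⟩
  refine ⟨fun n => (Fc n : ℝ → ℝ), ⟨?_, ?_⟩, rfl⟩
  · intro n x hx
    exact (hS _ (Fc n).2).1 x hx
  · intro n x hx
    have h2 : Fc (n + 1) = D (Fc n) := Function.iterate_succ_apply' D n _
    rw [h2]
    exact hD _ x hx

theorem exists_stable (s β : ℝ) (hs : 0 ≤ s) (hβ : 0 < β) (hβ1 : β ≤ 1) :
    ∃ ν : Measure I, IsFiniteMeasure ν ∧
      ∀ v, 0 < v → ∫ a, (a : ℝ) ^ v ∂ν = Real.exp (-(s * v ^ β)) := by
  obtain ⟨Fc, hFc, h0⟩ := chain_of_closed'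
    {G | ∃ P, PP P ∧ ∀ x, 0 < x → G x = P x * Real.exp (-(s * x ^ β))}
    (F := fun x => Real.exp (-(s * x ^ β))) (by
      rintro G ⟨P, hP, hG⟩
      constructor
      · intro x hx
        rw [hG x hx]
        exact mul_nonneg (hP.nonneg hx) (Real.exp_pos _).le
      · obtain ⟨P', hP', hd⟩ := hP.deriv
        obtain ⟨Q, hQ, hQe⟩ := hP.mulpow (k := s * β) (b := 1 - β) (by positivity) (by linarith)
        obtain ⟨R, hR, hRe⟩ := hP'.plus hQ
        refine ⟨fun x => R x * Real.exp (-(s * x ^ β)), ⟨R, hR, fun x _ => rfl⟩, fun x hx => ?_⟩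
        have h1 := (Real.hasDerivAt_rpow_const (x := x) (p := β) (Or.inl hx.ne')).const_mul s
        have h2 := (hd x hx).mul (h1.neg.exp)
        have h3 : HasDerivAt G (-(R x * Real.exp (-(s * x ^ β)))) x := by
          refine (h2.congr_deriv ?_).congr_of_eventuallyEq ?_
          · rw [hRe x, hQe x hx]
            have e : -(1 - β) = β - 1 := by ring
            rw [e]
            simp only [Pi.neg_apply]
            ring
          · filter_upwards [lt_mem_nhds hx] with y hy
            rw [hG y hy]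
            rfl
        exact h3)
    ⟨fun x => 1 * x ^ (-(0:ℝ)) + 0, PP.add 1 0 _ (by norm_num) le_rfl PP.zero, fun x hx => by
      simp⟩
  obtain ⟨ν, hν, h⟩ := bernstein hFc (C := 1) (fun x hx => by
    rw [h0]
    apply Real.exp_le_one_iff.2
    have : 0 ≤ x ^ β := Real.rpow_nonneg hx.le _
    have : 0 ≤ s * x ^ β := by positivity
    linarith)
  exact ⟨ν, hν, fun v hv => by rw [h v hv, h0]⟩

end Pool.Agent.R853.Avg
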