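import Mathlib
import Pool.Agent.R853.Avg.Scal

set_option autoImplicit false
set_option linter.unusedSectionVars false

/-!
Abstract Hilbert space part: diagonal operators, and the functional `Ph`.
-/

namespace Pool.Agent.R853.Avg

open MeasureTheory Set Filter Topology
open scoped RealInnerProductSpace
open Pool.Agent.H506R3.MagB (uu uu_ft uu_int uu_pos uu_cont)

section
variable {H : Type*} [NormedAddCommGroup H] [InnerProductSpace ℝ H] [CompleteSpace H]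
variable (e : HilbertBasis ℕ ℝ H)

lemma parseval (z : H) : HasSum (fun j => ⟪e j, z⟫ ^ 2) (‖z‖ ^ 2) := by
  have h := e.hasSum_inner_mul_inner z z
  rw [real_inner_self_eq_norm_sq] at h
  have e1 : (fun j => ⟪e j, z⟫ ^ 2) = fun j => ⟪z, e j⟫ * ⟪e j, z⟫ := by
    funext j
    rw [real_inner_comm (e j) z, sq]
  rw [e1]
  exact h

lemma hb_ext {z w : H} (h : ∀ j, ⟪e j, z⟫ = ⟪e j, w⟫) : z = w := by
  apply e.repr.injective
  apply lp.ext
  funext j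
  rw [e.repr_apply_apply, e.repr_apply_apply, h j]

lemma hs_ip (z y : H) : HasSum (fun j => ⟪e j, z⟫ * ⟪e j, y⟫) ⟪z, y⟫ := by
  have h := e.hasSum_inner_mul_inner z y
  have e1 : (fun j => ⟪e j, z⟫ * ⟪e j, y⟫) = fun j => ⟪z, e j⟫ * ⟪e j, y⟫ := by
    funext j
    rw [real_inner_comm (e j) z]
  rw [e1]
  exact h

lemma hs_abs (z y : H) : Summable (fun j => |⟪e j, z⟫ * ⟪e j, y⟫|) := by
  have h := ((parseval e z).summable.add (parseval e y).summable)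
  refine Summable.of_nonneg_of_le (fun j => abs_nonneg _) (fun j => ?_) h
  rw [abs_le]
  constructor <;> nlinarith [sq_nonneg (⟪e j, z⟫ + ⟪e j, y⟫), sq_nonneg (⟪e j, z⟫ - ⟪e j, y⟫)]

lemma norm_le_of_coef {z w : H} {B : ℝ} (hB : 0 ≤ B) (h : ∀ j, |⟪e j, w⟫| ≤ B * |⟪e j, z⟫|) :
    ‖w‖ ≤ B * ‖z‖ := by
  have h1 : ‖w‖ ^ 2 ≤ B ^ 2 * ‖z‖ ^ 2 := by
    refine hasSum_le (fun j => ?_) (parseval e w) ((parseval e z).mul_left (B ^ 2))
    have h2 := h j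
    rw [← sq_abs, ← sq_abs ⟪e j, z⟫, ← mul_pow]
    exact pow_le_pow_left₀ (abs_nonneg _) h2 2
  rw [← mul_pow] at h1
  exact (pow_le_pow_iff_left₀ (norm_nonneg _) (by positivity) two_ne_zero).1 h1

lemma exists_of_sq_summable (c : ℕ → ℝ) (hc : Summable fun j => c j ^ 2) :
    ∃ w : H, ∀ j, ⟪e j, w⟫ = c j := by
  have hm : Memℓp (fun j => c j) (2 : ENNReal) := by
    apply memℓp_gen
    refine hc.congr fun j => ?_
    simp
  refine ⟨e.repr.symm ⟨fun j => c j, hm⟩, fun j => ?_⟩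
  rw [← e.repr_apply_apply, LinearIsometryEquiv.apply_symm_apply]

open Classical in
/-- The diagonal operator with symbol `b`. -/
noncomputable def dg (b : ℕ → ℝ) (z : H) : H :=
  if h : ∃ w, ∀ j, ⟪e j, w⟫ = b j * ⟪e j, z⟫ then h.choose else 0

lemma dg_coef {b : ℕ → ℝ} {B : ℝ} (hB : ∀ j, |b j| ≤ B) (z : H) (j : ℕ) :
    ⟪e j, dg e b z⟫ = b j * ⟪e j, z⟫ := by
  have h : ∃ w : H, ∀ j, ⟪e j, w⟫ = b j * ⟪e j, z⟫ := by
    apply exists_of_sq_summable e (fun j => b j * ⟪e j, z⟫)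
    refine Summable.of_nonneg_of_le (fun j => sq_nonneg _) (fun j => ?_)
      ((parseval e z).summable.mul_left (B ^ 2))
    rw [mul_pow]
    apply mul_le_mul_of_nonneg_right _ (sq_nonneg _)
    rw [← sq_abs]
    exact pow_le_pow_left₀ (abs_nonneg _) (hB j) 2
  unfold dg
  rw [dif_pos h]
  exact h.choose_spec j

lemma dg_norm {b : ℕ → ℝ} {B : ℝ} (hB : ∀ j, |b j| ≤ B) (z : H) : ‖dg e b z‖ ≤ B * ‖z‖ := by
  have h0 : 0 ≤ B := (abs_nonneg _).trans (hB 0)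
  apply norm_le_of_coef e h0
  intro j
  rw [dg_coef e hB, abs_mul]
  exact mul_le_mul_of_nonneg_right (hB j) (abs_nonneg _)

lemma dg_unique {b : ℕ → ℝ} {B : ℝ} (hB : ∀ j, |b j| ≤ B) {z w : H}
    (h : ∀ j, ⟪e j, w⟫ = b j * ⟪e j, z⟫) : dg e b z = w :=
  hb_ext e (fun j => by rw [dg_coef e hB, h j])

/-! ### The resolvent -/

variable (lam : ℕ → ℝ)

/-- `(q² + A)⁻¹ z` -/
noncomputable def rs (q : ℝ) (z : H) : H := dg e (fun j => (lam j + q ^ 2)⁻¹) z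

variable {lam} {l0 : ℝ} (hl0 : 0 < l0) (hlam : ∀ j, l0 ≤ lam j)

include hl0 hlam

lemma rs_bd (q : ℝ) (j : ℕ) : |(lam j + q ^ 2)⁻¹| ≤ l0⁻¹ := by
  have h1 := hlam j
  have h2 : 0 < lam j + q ^ 2 := add_pos_of_pos_of_nonneg (hl0.trans_le h1) (sq_nonneg _)
  rw [abs_of_pos (inv_pos.2 h2)]
  apply inv_anti₀ hl0
  nlinarith [sq_nonneg q]

lemma rs_coef (q : ℝ) (z : H) (j : ℕ) : ⟪e j, rs e lam q z⟫ = (lam j + q ^ 2)⁻¹ * ⟪e j, z⟫ :=
  dg_coef e (rs_bd hl0 hlam q) z j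

lemma rs_norm (q : ℝ) (z : H) : ‖rs e lam q z‖ ≤ l0⁻¹ * ‖z‖ :=
  dg_norm e (rs_bd hl0 hlam q) z

lemma rs_cont (z : H) : Continuous (fun q => rs e lam q z) := by
  have key : ∀ q q' : ℝ, ‖rs e lam q z - rs e lam q' z‖ ≤ |q ^ 2 - q' ^ 2| * (l0⁻¹ ^ 2 * ‖z‖) := by
    intro q q'
    rw [← mul_assoc]
    apply norm_le_of_coef e (by positivity)
    intro j
    rw [inner_sub_right, rs_coef e hl0 hlam, rs_coef e hl0 hlam, ← sub_mul, abs_mul]
    apply mul_le_mul_of_nonneg_right _ (abs_nonneg _)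
    have h1 : 0 < lam j + q ^ 2 := add_pos_of_pos_of_nonneg (hl0.trans_le (hlam j)) (sq_nonneg _)
    have h2 : 0 < lam j + q' ^ 2 := add_pos_of_pos_of_nonneg (hl0.trans_le (hlam j)) (sq_nonneg _)
    have h3 : (lam j + q ^ 2)⁻¹ - (lam j + q' ^ 2)⁻¹ =
        -((q ^ 2 - q' ^ 2) * ((lam j + q ^ 2)⁻¹ * (lam j + q' ^ 2)⁻¹)) := by
      field_simp
      ring
    rw [h3, abs_neg, abs_mul]
    apply mul_le_mul_of_nonneg_left _ (abs_nonneg _)
    rw [abs_mul, sq l0⁻¹]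
    exact mul_le_mul (rs_bd hl0 hlam q j) (rs_bd hl0 hlam q' j) (abs_nonneg _) (by positivity)
  rw [continuous_iff_continuousAt]
  intro q'
  unfold ContinuousAt
  rw [tendsto_iff_norm_sub_tendsto_zero]
  have h2 : Tendsto (fun q : ℝ => |q ^ 2 - q' ^ 2| * (l0⁻¹ ^ 2 * ‖z‖)) (𝓝 q') (𝓝 0) := by
    have : Continuous (fun q : ℝ => |q ^ 2 - q' ^ 2| * (l0⁻¹ ^ 2 * ‖z‖)) := by fun_prop
    have h3 := this.tendsto q'
    simpa using h3
  exact squeeze_zero (fun q => norm_nonneg _) (fun q => key q q') h2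

omit hl0 hlam
/-- `Σ_j F_j ⟪e_j, z⟫ ⟪e_j, y⟫` -/
noncomputable def Ph (z y : H) (F : ℕ → ℝ) : ℝ := ∑' j, F j * (⟪e j, z⟫ * ⟪e j, y⟫)

lemma Ph_summable (z y : H) {F : ℕ → ℝ} {B : ℝ} (hB : ∀ j, |F j| ≤ B) :
    Summable (fun j => F j * (⟪e j, z⟫ * ⟪e j, y⟫)) := by
  refine Summable.of_norm_bounded ((hs_abs e z y).mul_left B) (fun j => ?_)
  rw [Real.norm_eq_abs, abs_mul]
  exact mul_le_mul_of_nonneg_right (hB j) (abs_nonneg _)

lemma Ph_eq_inner (z y : H) {F : ℕ → ℝ} {B : ℝ} (hB : ∀ j, |F j| ≤ B) :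
    Ph e z y F = ⟪dg e F z, y⟫ := by
  unfold Ph
  have h := hs_ip e (dg e F z) y
  rw [← h.tsum_eq]
  refine tsum_congr fun j => ?_
  rw [dg_coef e hB]
  ring

lemma Ph_one (z y : H) : Ph e z y (fun _ => 1) = ⟪z, y⟫ := by
  unfold Ph
  simp only [one_mul]
  exact (hs_ip e z y).tsum_eq

lemma Ph_le (z y : H) {F : ℕ → ℝ} {B : ℝ} (hB : ∀ j, |F j| ≤ B) :
    |Ph e z y F| ≤ B * ‖z‖ * ‖y‖ := by
  rw [Ph_eq_inner e z y hB]
  refine (abs_real_inner_le_norm _ _).trans ?_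
  exact mul_le_mul_of_nonneg_right (dg_norm e hB z) (norm_nonneg _)

end
end Pool.Agent.R853.Avg
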