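import Mathlib
import Pool.Agent.R853.Avg.Abs

set_option autoImplicit false
set_option linter.unusedSectionVars false

/-!
The iteration.
-/

namespace Pool.Agent.R853.Avg

open MeasureTheory Set Filter Topology
open scoped RealInnerProductSpace Nat
open Pool.Agent.H506R3.MagB (uu uu_ft uu_int uu_pos uu_cont)

/-! ### integrability -/

lemma int_abs_exp {k : ℝ} (hk : 0 < k) : Integrable (fun q : ℝ => |q| * Real.exp (-(k * |q|))) := by
  have h0 : Integrable (fun q : ℝ => (1 / k + 6 / k ^ 3) * (1 + q ^ 2)⁻¹) :=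
    integrable_inv_one_add_sq.const_mul _
  refine h0.mono' (Continuous.aestronglyMeasurable (by fun_prop)) (Eventually.of_forall fun q => ?_)
  rw [Real.norm_eq_abs, abs_of_nonneg (by positivity)]
  set t := |q| with ht
  have ht0 : 0 ≤ t := abs_nonneg q
  have hq2 : q ^ 2 = t ^ 2 := (sq_abs q).symm
  rw [hq2, Real.exp_neg]
  have h1 := Real.pow_div_factorial_le_exp (k * t) (by positivity) 1
  have h3 := Real.pow_div_factorial_le_exp (k * t) (by positivity) 3
  have e3 : ((3:ℕ)! : ℝ) = 6 := by norm_num [Nat.factorial]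
  have e1 : ((1:ℕ)! : ℝ) = 1 := by norm_num [Nat.factorial]
  rw [e3] at h3
  rw [e1] at h1
  have hE : 0 < Real.exp (k * t) := Real.exp_pos _
  rw [← div_eq_mul_inv, ← div_eq_mul_inv, div_le_div_iff₀ hE (by positivity)]
  have h4 : t ≤ 1 / k * Real.exp (k * t) := by
    rw [one_div, ← div_eq_inv_mul, le_div_iff₀ hk]
    calc t * k = (k * t) ^ 1 / 1 := by ring
      _ ≤ _ := h1
  have h5 : t ^ 3 ≤ 6 / k ^ 3 * Real.exp (k * t) := by
    rw [div_mul_eq_mul_div, le_div_iff₀ (by positivity)]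
    have : t ^ 3 * k ^ 3 = 6 * ((k * t) ^ 3 / 6) := by ring
    rw [this]
    exact mul_le_mul_of_nonneg_left h3 (by norm_num)
  calc t * (1 + t ^ 2) = t + t ^ 3 := by ring
    _ ≤ 1 / k * Real.exp (k * t) + 6 / k ^ 3 * Real.exp (k * t) := add_le_add h4 h5
    _ = _ := by ring

lemma uu_mass (x : ℝ) (hx : 0 < x) : ∫ q : ℝ, uu x q = Real.pi * x := by
  have h := cos_int x hx 0
  simpa using h

lemma hasSum_congr' {f g : ℕ → ℝ} {a : ℝ} (h : ∀ j, f j = g j) (hg : HasSum g a) : HasSum f a := by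
  have : f = g := funext h
  rw [this]; exact hg

section
variable {H : Type*} [NormedAddCommGroup H] [InnerProductSpace ℝ H] [CompleteSpace H]
variable (e : HilbertBasis ℕ ℝ H) (lam : ℕ → ℝ)

/-- The local data. -/
structure LocData (l0 : ℝ) (Pr : H →L[ℝ] H) (K : Set H) (D : Submodule ℝ H) (K' κ : ℝ) : Prop where
  hl0 : 0 < l0
  hlam : ∀ j, l0 ≤ lam j
  hK : ∀ y ∈ K, ∀ w, ⟪w, y⟫ = ⟪Pr w, y⟫
  D1 : ∀ z ∈ D, ∃ z' ∈ D, ∀ j, ⟪e j, z'⟫ = lam j * ⟪e j, z⟫
  D2 : ∀ z ∈ D, Pr z = 0
  hκ : 0 < κ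
  hK' : 0 ≤ K'
  D3 : ∀ z ∈ D, ∀ q, ‖Pr (rs e lam q z)‖ ≤ K' * Real.exp (-(κ * |q|)) * ‖z‖

/-- the resolvent seminorm -/
noncomputable def Nn (Pr : H →L[ℝ] H) (z : H) : ℝ :=
  (1 / Real.pi) * ∫ q : ℝ, |q| * ‖Pr (rs e lam q z)‖

variable {e lam} {l0 : ℝ} {Pr : H →L[ℝ] H} {K : Set H} {D : Submodule ℝ H} {K' κ : ℝ}
  (L : LocData e lam l0 Pr K D K' κ)

include L

lemma Nn_nonneg (z : H) : 0 ≤ Nn e lam Pr z := by
  unfold Nn
  have := Real.pi_pos
  apply mul_nonneg (by positivity)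
  apply integral_nonneg
  intro q
  positivity

lemma prrs_cont (z : H) : Continuous (fun q : ℝ => Pr (rs e lam q z)) :=
  Pr.continuous.comp (rs_cont e L.hl0 L.hlam z)

lemma prrs_int {z : H} (hz : z ∈ D) : Integrable (fun q : ℝ => |q| * ‖Pr (rs e lam q z)‖) := by
  have h0 := (int_abs_exp L.hκ).const_mul (K' * ‖z‖)
  refine h0.mono' (Continuous.aestronglyMeasurable ?_) (Eventually.of_forall fun q => ?_)
  · exact continuous_abs.mul (prrs_cont L z).norm
  · rw [Real.norm_eq_abs, abs_of_nonneg (by positivity)]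
    calc |q| * ‖Pr (rs e lam q z)‖ ≤ |q| * (K' * Real.exp (-(κ * |q|)) * ‖z‖) :=
          mul_le_mul_of_nonneg_left (L.D3 z hz q) (abs_nonneg _)
      _ = _ := by ring

lemma inner_zero {z y : H} (hz : z ∈ D) (hy : y ∈ K) : ⟪z, y⟫ = 0 := by
  rw [L.hK y hy z, L.D2 z hz, inner_zero_left]

theorem ph_exp_le {z y : H} (hz : z ∈ D) (hy : y ∈ K) {r : ℝ} (hr : 0 ≤ r) :
    |Ph e z y (fun j => Real.exp (-(√(lam j) * r)))| ≤ Nn e lam Pr z * ‖y‖ := by
  have hlp : ∀ j, 0 < lam j := fun j => L.hl0.trans_le (L.hlam j)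
  have hsp : ∀ j, 0 < √(lam j) := fun j => Real.sqrt_pos.2 (hlp j)
  set c : ℕ → ℝ := fun j => ⟪e j, z⟫ * ⟪e j, y⟫ with hc
  let F : ℕ → ℝ → ℝ := fun j q => c j * (sk r q * uu (√(lam j)) q)
  have hbd : ∀ j q, ‖F j q‖ ≤ |c j| * (r * uu (√(lam j)) q) := by
    intro j q
    rw [Real.norm_eq_abs]
    change |c j * (sk r q * uu (√(lam j)) q)| ≤ _
    rw [abs_mul (c j), abs_mul (sk r q), abs_of_pos (uu_pos _ q)]
    apply mul_le_mul_of_nonneg_left _ (abs_nonneg _)
    exact mul_le_mul_of_nonneg_right (sk_abs r q hr) (uu_pos _ q).le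
  have hFc : ∀ j, Continuous (F j) := fun j =>
    continuous_const.mul ((sk_cont r).mul (uu_cont _))
  have hbi : ∀ j, Integrable (fun q => |c j| * (r * uu (√(lam j)) q)) := fun j =>
    ((uu_int _ (hsp j)).const_mul r).const_mul _
  have hFi : ∀ j, Integrable (F j) := fun j =>
    (hbi j).mono' (hFc j).aestronglyMeasurable (Eventually.of_forall (hbd j))
  obtain ⟨z', hz', hz'c⟩ := L.D1 z hz
  have hsum : Summable (fun j => ∫ q, ‖F j q‖) := by
    have h1 := ((hs_abs e z y).add (hs_abs e z' y)).mul_left (r * Real.pi)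
    refine Summable.of_nonneg_of_le (fun j => integral_nonneg fun q => norm_nonneg _)
      (fun j => ?_) h1
    calc ∫ q, ‖F j q‖ ≤ ∫ q, |c j| * (r * uu (√(lam j)) q) :=
          integral_mono (hFi j).norm (hbi j) (hbd j)
      _ = |c j| * (r * (Real.pi * √(lam j))) := by
          rw [integral_const_mul, integral_const_mul, uu_mass _ (hsp j)]
      _ = r * Real.pi * (|c j| * √(lam j)) := by ring
      _ ≤ r * Real.pi * (|⟪e j, z⟫ * ⟪e j, y⟫| + |⟪e j, z'⟫ * ⟪e j, y⟫|) := by
          apply mul_le_mul_of_nonneg_left _ (by have := Real.pi_pos; positivity)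
          rw [hz'c j]
          have h2 : |lam j * ⟪e j, z⟫ * ⟪e j, y⟫| = |c j| * lam j := by
            rw [mul_assoc, abs_mul, abs_of_pos (hlp j), mul_comm]
          rw [h2]
          have h3 : √(lam j) ≤ 1 + lam j := by
            rw [Real.sqrt_le_left (by have := hlp j; linarith)]
            nlinarith [hlp j, sq_nonneg (lam j)]
          calc |c j| * √(lam j) ≤ |c j| * (1 + lam j) :=
                mul_le_mul_of_nonneg_left h3 (abs_nonneg _)
            _ = _ := by simp only [hc]; ring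
  have hmain := hasSum_integral_of_summable_integral_norm hFi hsum
  have hpt : ∀ q, ∑' j, F j q = -(q * Real.sin (q * r) * ⟪Pr (rs e lam q z), y⟫) := by
    intro q
    have h1 : ∀ j, F j q = sk r q * c j - (sk r q * q ^ 2) * ((lam j + q ^ 2)⁻¹ * c j) := by
      intro j
      have h2 : uu (√(lam j)) q = 1 - q ^ 2 * (lam j + q ^ 2)⁻¹ := by
        have h3 : 0 < lam j + q ^ 2 := add_pos_of_pos_of_nonneg (hlp j) (sq_nonneg _)
        have h4 := hlp j
        unfold uu
        rw [Real.sq_sqrt (hlp j).le]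
        have h5 : 1 + q ^ 2 / lam j = (lam j + q ^ 2) / lam j := by field_simp
        rw [h5]
        field_simp
        ring
      simp only [F]
      rw [h2]
      ring
    have hs1 : HasSum (fun j => sk r q * c j) (sk r q * ⟪z, y⟫) := (hs_ip e z y).mul_left _
    have hs2 : HasSum (fun j => (lam j + q ^ 2)⁻¹ * c j) ⟪rs e lam q z, y⟫ := by
      have h3 := hs_ip e (rs e lam q z) y
      refine (hasSum_congr' ?_ h3)
      intro j
      rw [rs_coef e L.hl0 L.hlam]
      simp only [hc]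
      ring
    have hs3 := hs1.sub (hs2.mul_left (sk r q * q ^ 2))
    rw [tsum_congr h1, hs3.tsum_eq, inner_zero L hz hy, L.hK y hy]
    have := sk_mul r q
    rw [← this]
    ring
  have hval : ∀ j, ∫ q, F j q = c j * (Real.pi * (1 - Real.exp (-(√(lam j) * r)))) := by
    intro j
    simp only [F]
    rw [integral_const_mul, sin_int _ (hsp j) r hr]
  have hE : ∀ j, |Real.exp (-(√(lam j) * r))| ≤ 1 := by
    intro j
    rw [abs_of_pos (Real.exp_pos _)]
    apply Real.exp_le_one_iff.2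
    have := (hsp j).le
    have : 0 ≤ √(lam j) * r := by positivity
    linarith
  have hPh : HasSum (fun j => Real.exp (-(√(lam j) * r)) * c j)
      (Ph e z y (fun j => Real.exp (-(√(lam j) * r)))) := (Ph_summable e z y hE).hasSum
  have hR : HasSum (fun j => c j * (Real.pi * (1 - Real.exp (-(√(lam j) * r)))))
      (Real.pi * (⟪z, y⟫ - Ph e z y (fun j => Real.exp (-(√(lam j) * r))))) := by
    have h1 := ((hs_ip e z y).sub hPh).mul_left Real.pi
    refine (hasSum_congr' ?_ h1)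
    intro j
    simp only [hc]
    ring
  simp_rw [hval, hpt] at hmain
  have h5 := hR.unique hmain
  rw [inner_zero L hz hy, integral_neg] at h5
  have h6 : Ph e z y (fun j => Real.exp (-(√(lam j) * r))) =
      (1 / Real.pi) * ∫ q, q * Real.sin (q * r) * ⟪Pr (rs e lam q z), y⟫ := by
    have hpi := Real.pi_pos
    rw [one_div, eq_inv_mul_iff_mul_eq₀ hpi.ne']
    linarith
  rw [h6, abs_mul, abs_of_pos (by have := Real.pi_pos; positivity)]
  unfold Nn
  rw [mul_assoc]
  apply mul_le_mul_of_nonneg_left _ (by have := Real.pi_pos; positivity)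
  rw [← integral_mul_const, ← Real.norm_eq_abs]
  refine norm_integral_le_of_norm_le ((prrs_int L hz).mul_const _) (Eventually.of_forall fun q => ?_)
  rw [norm_mul, norm_mul, Real.norm_eq_abs, Real.norm_eq_abs, Real.norm_eq_abs]
  have h7 := abs_real_inner_le_norm (Pr (rs e lam q z)) y
  have h8 := Real.abs_sin_le_one (q * r)
  calc |q| * |Real.sin (q * r)| * |⟪Pr (rs e lam q z), y⟫|
      ≤ |q| * 1 * (‖Pr (rs e lam q z)‖ * ‖y‖) := by gcongr
    _ = _ := by ring

end
end Pool.Agent.R853.Avg
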