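import Mathlib
import Pool.Agent.R853.Avg.Core

set_option autoImplicit false
set_option linter.unusedSectionVars false

/-!
The iteration.
-/

namespace Pool.Agent.R853.Avg

open MeasureTheory Set Filter Topology
open scoped RealInnerProductSpace Nat
open Pool.Agent.H506R3.MagB (uu uu_ft uu_int uu_pos uu_cont)

section
variable {H : Type*} [NormedAddCommGroup H] [InnerProductSpace ℝ H] [CompleteSpace H]
variable {e : HilbertBasis ℕ ℝ H} {lam : ℕ → ℝ}
variable {l0 : ℝ} {Pr : H →L[ℝ] H} {K : Set H} {D : Submodule ℝ H} {K' κ : ℝ}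
  (L : LocData e lam l0 Pr K D K' κ)

include L

lemma powers {z : H} (hz : z ∈ D) : ∃ zs : ℕ → H, zs 0 = z ∧ (∀ k, zs k ∈ D) ∧
    (∀ k j, ⟪e j, zs (k + 1)⟫ = lam j * ⟪e j, zs k⟫) := by
  have h : ∀ w : D, ∃ w' : D, ∀ j, ⟪e j, (w' : H)⟫ = lam j * ⟪e j, (w : H)⟫ := by
    intro w
    obtain ⟨w', hw', h⟩ := L.D1 w w.2
    exact ⟨⟨w', hw'⟩, h⟩
  choose g hg using h
  refine ⟨fun k => ((g^[k] ⟨z, hz⟩ : D) : H), rfl, fun k => (g^[k] ⟨z, hz⟩).2, fun k j => ?_⟩
  simp only [Function.iterate_succ_apply']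
  exact hg _ j

lemma powers_coef {z : H} {zs : ℕ → H} (h0 : zs 0 = z)
    (hs : ∀ k j, ⟪e j, zs (k + 1)⟫ = lam j * ⟪e j, zs k⟫) (k j : ℕ) :
    ⟪e j, zs k⟫ = lam j ^ k * ⟪e j, z⟫ := by
  induction k with
  | zero => rw [h0, pow_zero, one_mul]
  | succ k ih => rw [hs, ih, pow_succ]; ring

lemma prrs_pow {z : H} {zs : ℕ → H} (h0 : zs 0 = z) (hD : ∀ k, zs k ∈ D)
    (hs : ∀ k j, ⟪e j, zs (k + 1)⟫ = lam j * ⟪e j, zs k⟫) (q : ℝ) (k : ℕ) :
    Pr (rs e lam q (zs k)) = (-q ^ 2) ^ k • Pr (rs e lam q z) := by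
  induction k with
  | zero => rw [h0, pow_zero, one_smul]
  | succ k ih =>
    have h1 : rs e lam q (zs (k + 1)) = zs k - q ^ 2 • rs e lam q (zs k) := by
      apply hb_ext e
      intro j
      rw [rs_coef e L.hl0 L.hlam, hs, inner_sub_right, inner_smul_right, rs_coef e L.hl0 L.hlam]
      have h3 : 0 < lam j + q ^ 2 :=
        add_pos_of_pos_of_nonneg (L.hl0.trans_le (L.hlam j)) (sq_nonneg _)
      field_simp
      ring
    rw [h1, map_sub, L.D2 _ (hD k), map_smul, ih, zero_sub, smul_smul, pow_succ, ← neg_smul]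
    congr 1
    ring

lemma rs_sum (q : ℝ) (N : ℕ) (a : ℕ → ℝ) (zs : ℕ → H) :
    rs e lam q (∑ k ∈ Finset.range N, a k • zs k) =
      ∑ k ∈ Finset.range N, a k • rs e lam q (zs k) := by
  apply hb_ext e
  intro j
  rw [rs_coef e L.hl0 L.hlam, inner_sum, inner_sum, Finset.mul_sum]
  refine Finset.sum_congr rfl fun k _ => ?_
  rw [inner_smul_right, inner_smul_right, rs_coef e L.hl0 L.hlam]
  ring

/-- One step of the iteration. -/
lemma step {b C : ℝ}
    (h : ∀ z ∈ D, ∀ F : Finset ℕ, ∑ j ∈ F, Real.exp (-(2 * b * √(lam j))) * ⟪e j, z⟫ ^ 2 ≤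
      C ^ 2 * Nn e lam Pr z ^ 2) :
    ∀ z ∈ D, ∀ F : Finset ℕ, ∑ j ∈ F, Real.exp (-(2 * (b - κ / 2) * √(lam j))) * ⟪e j, z⟫ ^ 2 ≤
      (2 * C) ^ 2 * Nn e lam Pr z ^ 2 := by
  intro z hz F
  set ε := κ / 2 with hε
  have hε0 : 0 < ε := by have := L.hκ; positivity
  obtain ⟨zs, h0, hD, hs⟩ := powers L hz
  have hcoef := powers_coef L h0 hs
  have hpi := Real.pi_pos
  -- the approximants
  let S : ℕ → ℝ → ℝ := fun N x => ∑ k ∈ Finset.range N, (ε ^ (2 * k) / ((2 * k)! : ℝ)) * x ^ k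
  let zN : ℕ → H := fun N => ∑ k ∈ Finset.range N, (ε ^ (2 * k) / ((2 * k)! : ℝ)) • zs k
  have hzND : ∀ N, zN N ∈ D := fun N => Submodule.sum_mem _ fun k _ => D.smul_mem _ (hD k)
  have hzNc : ∀ N j, ⟪e j, zN N⟫ = S N (lam j) * ⟪e j, z⟫ := by
    intro N j
    simp only [zN, S]
    rw [inner_sum, Finset.sum_mul]
    refine Finset.sum_congr rfl fun k _ => ?_
    rw [inner_smul_right, hcoef]
    ring
  have hPz : ∀ N q, Pr (rs e lam q (zN N)) = S N (-q ^ 2) • Pr (rs e lam q z) := by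
    intro N q
    simp only [zN, S]
    rw [rs_sum L, map_sum, Finset.sum_smul]
    refine Finset.sum_congr rfl fun k _ => ?_
    rw [map_smul, prrs_pow L h0 hD hs, smul_smul]
  -- convergence of S
  have hScosh : ∀ j, Tendsto (fun N => S N (lam j)) atTop (𝓝 (Real.cosh (ε * √(lam j)))) := by
    intro j
    have h1 := (Real.hasSum_cosh (ε * √(lam j))).tendsto_sum_nat
    refine h1.congr fun N => ?_
    refine Finset.sum_congr rfl fun k _ => ?_
    rw [mul_pow, pow_mul (√(lam j)), Real.sq_sqrt (L.hl0.trans_le (L.hlam j)).le]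
    ring
  have hScos : ∀ q : ℝ, Tendsto (fun N => S N (-q ^ 2)) atTop (𝓝 (Real.cos (ε * q))) := by
    intro q
    have h1 := (Real.hasSum_cos (ε * q)).tendsto_sum_nat
    refine h1.congr fun N => ?_
    refine Finset.sum_congr rfl fun k _ => ?_
    rw [mul_pow, pow_mul q, neg_pow (q ^ 2)]
    ring
  have hSbd : ∀ N (q : ℝ), |S N (-q ^ 2)| ≤ Real.exp (ε * |q|) := by
    intro N q
    have h1 : |S N (-q ^ 2)| ≤ ∑ k ∈ Finset.range N, (ε * |q|) ^ (2 * k) / ((2 * k)! : ℝ) := by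
      refine (Finset.abs_sum_le_sum_abs _ _).trans (le_of_eq ?_)
      refine Finset.sum_congr rfl fun k _ => ?_
      rw [abs_mul, abs_pow, abs_neg, abs_pow, abs_of_nonneg (by positivity : (0:ℝ) ≤
        ε ^ (2 * k) / ((2 * k)! : ℝ)), mul_pow, pow_mul |q|]
      ring
    have h2 : ∑ k ∈ Finset.range N, (ε * |q|) ^ (2 * k) / ((2 * k)! : ℝ) ≤
        Real.cosh (ε * |q|) := by
      refine sum_le_hasSum _ (fun k _ => by positivity) (Real.hasSum_cosh (ε * |q|))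
    have h3 : Real.cosh (ε * |q|) ≤ Real.exp (ε * |q|) := by
      rw [Real.cosh_eq]
      have : Real.exp (-(ε * |q|)) ≤ Real.exp (ε * |q|) :=
        Real.exp_le_exp.2 (by have : 0 ≤ ε * |q| := by positivity
                              linarith)
      linarith
    exact h1.trans (h2.trans h3)
  -- convergence of the seminorm
  have hNlim : Tendsto (fun N => Nn e lam Pr (zN N)) atTop
      (𝓝 ((1 / Real.pi) * ∫ q : ℝ, |q| * (|Real.cos (ε * q)| * ‖Pr (rs e lam q z)‖))) := by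
    unfold Nn
    apply Tendsto.const_mul
    refine tendsto_integral_of_dominated_convergence
      (fun q => K' * ‖z‖ * (|q| * Real.exp (-(ε * |q|)))) ?_ ?_ ?_ ?_
    · intro N
      exact (prrs_int L (hzND N)).aestronglyMeasurable
    · exact (int_abs_exp hε0).const_mul _
    · intro N
      refine Eventually.of_forall fun q => ?_
      rw [Real.norm_eq_abs, abs_of_nonneg (by positivity), hPz, norm_smul, Real.norm_eq_abs]
      have h1 := L.D3 z hz q
      have h2 := hSbd N q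
      calc |q| * (|S N (-q ^ 2)| * ‖Pr (rs e lam q z)‖)
          ≤ |q| * (Real.exp (ε * |q|) * (K' * Real.exp (-(κ * |q|)) * ‖z‖)) := by gcongr
        _ = K' * ‖z‖ * (|q| * (Real.exp (ε * |q|) * Real.exp (-(κ * |q|)))) := by ring
        _ = _ := by
          rw [← Real.exp_add]
          congr 3
          rw [hε]
          ring_nf
    · refine Eventually.of_forall fun q => ?_
      apply Tendsto.const_mul
      have h1 : Tendsto (fun N => |S N (-q ^ 2)| * ‖Pr (rs e lam q z)‖) atTop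
          (𝓝 (|Real.cos (ε * q)| * ‖Pr (rs e lam q z)‖)) := (hScos q).abs.mul_const _
      refine h1.congr fun N => ?_
      rw [hPz, norm_smul, Real.norm_eq_abs]
  have hNle : (1 / Real.pi) * ∫ q : ℝ, |q| * (|Real.cos (ε * q)| * ‖Pr (rs e lam q z)‖) ≤
      Nn e lam Pr z := by
    unfold Nn
    apply mul_le_mul_of_nonneg_left _ (by positivity)
    refine integral_mono_of_nonneg (Eventually.of_forall fun q => by positivity) (prrs_int L hz)
      (Eventually.of_forall fun q => ?_)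
    simp only
    apply mul_le_mul_of_nonneg_left _ (abs_nonneg _)
    have := Real.abs_cos_le_one (ε * q)
    nlinarith [norm_nonneg (Pr (rs e lam q z))]
  have hNl0 : 0 ≤ (1 / Real.pi) * ∫ q : ℝ, |q| * (|Real.cos (ε * q)| * ‖Pr (rs e lam q z)‖) := by
    apply mul_nonneg (by positivity)
    apply integral_nonneg
    intro q
    positivity
  -- pass to the limit
  have hlim1 : Tendsto (fun N => ∑ j ∈ F, Real.exp (-(2 * b * √(lam j))) * ⟪e j, zN N⟫ ^ 2) atTop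
      (𝓝 (∑ j ∈ F, Real.exp (-(2 * b * √(lam j))) * (Real.cosh (ε * √(lam j)) * ⟪e j, z⟫) ^ 2)) := by
    apply tendsto_finsetSum
    intro j _
    apply Tendsto.const_mul
    apply Tendsto.pow
    have h1 := (hScosh j).mul_const ⟪e j, z⟫
    exact h1.congr fun N => (hzNc N j).symm
  have hlim2 := (hNlim.pow 2).const_mul (C ^ 2)
  have hmain := le_of_tendsto_of_tendsto' hlim1 hlim2 (fun N => h _ (hzND N) F)
  have h5 : C ^ 2 * ((1 / Real.pi) * ∫ q : ℝ, |q| * (|Real.cos (ε * q)| * ‖Pr (rs e lam q z)‖)) ^ 2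
      ≤ C ^ 2 * Nn e lam Pr z ^ 2 :=
    mul_le_mul_of_nonneg_left (pow_le_pow_left₀ hNl0 hNle 2) (sq_nonneg _)
  have h6 : ∑ j ∈ F, Real.exp (-(2 * (b - ε) * √(lam j))) * ⟪e j, z⟫ ^ 2 ≤
      4 * ∑ j ∈ F, Real.exp (-(2 * b * √(lam j))) * (Real.cosh (ε * √(lam j)) * ⟪e j, z⟫) ^ 2 := by
    rw [Finset.mul_sum]
    refine Finset.sum_le_sum fun j _ => ?_
    have h7 : Real.exp (-(2 * (b - ε) * √(lam j))) =
        Real.exp (-(2 * b * √(lam j))) * Real.exp (ε * √(lam j)) ^ 2 := by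
      rw [← Real.exp_nat_mul, ← Real.exp_add]
      congr 1
      push_cast
      ring
    rw [h7]
    have h8 : Real.exp (ε * √(lam j)) ≤ 2 * Real.cosh (ε * √(lam j)) := by
      rw [Real.cosh_eq]
      have := Real.exp_pos (-(ε * √(lam j)))
      linarith
    have h9 : Real.exp (ε * √(lam j)) ^ 2 ≤ 4 * Real.cosh (ε * √(lam j)) ^ 2 := by
      calc Real.exp (ε * √(lam j)) ^ 2 ≤ (2 * Real.cosh (ε * √(lam j))) ^ 2 :=
            pow_le_pow_left₀ (Real.exp_pos _).le h8 2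
        _ = _ := by ring
    calc Real.exp (-(2 * b * √(lam j))) * Real.exp (ε * √(lam j)) ^ 2 * ⟪e j, z⟫ ^ 2
        ≤ Real.exp (-(2 * b * √(lam j))) * (4 * Real.cosh (ε * √(lam j)) ^ 2) * ⟪e j, z⟫ ^ 2 := by
          gcongr
      _ = _ := by ring
  calc _ ≤ _ := h6
    _ ≤ 4 * (C ^ 2 * Nn e lam Pr z ^ 2) :=
        mul_le_mul_of_nonneg_left (hmain.trans h5) (by norm_num)
    _ = _ := by ring

lemma all_b {a C : ℝ} (hC : 0 ≤ C)
    (h : ∀ z ∈ D, ∀ F : Finset ℕ, ∑ j ∈ F, Real.exp (-(2 * a * √(lam j))) * ⟪e j, z⟫ ^ 2 ≤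
      C ^ 2 * Nn e lam Pr z ^ 2) (n : ℕ) :
    ∃ C', 0 ≤ C' ∧ ∀ z ∈ D, ∀ F : Finset ℕ,
      ∑ j ∈ F, Real.exp (-(2 * (a - n * (κ / 2)) * √(lam j))) * ⟪e j, z⟫ ^ 2 ≤
      C' ^ 2 * Nn e lam Pr z ^ 2 := by
  induction n with
  | zero => exact ⟨C, hC, by simpa using h⟩
  | succ n ih =>
    obtain ⟨C', hC', h'⟩ := ih
    refine ⟨2 * C', by positivity, ?_⟩
    have h2 := step L h'
    have e1 : a - n * (κ / 2) - κ / 2 = a - ((n + 1 : ℕ) : ℝ) * (κ / 2) := by push_cast; ring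
    rw [e1] at h2
    exact h2

/-- super-exponential decay of the coefficients -/
lemma decay {a C : ℝ} (hC : 0 ≤ C)
    (h : ∀ z ∈ D, ∀ F : Finset ℕ, ∑ j ∈ F, Real.exp (-(2 * a * √(lam j))) * ⟪e j, z⟫ ^ 2 ≤
      C ^ 2 * Nn e lam Pr z ^ 2) {z : H} (hz : z ∈ D) (t : ℝ) :
    Summable (fun j => Real.exp (2 * t * √(lam j)) * ⟪e j, z⟫ ^ 2) := by
  obtain ⟨n, hn⟩ := exists_nat_ge ((a + t) / (κ / 2))
  have hκ := L.hκ
  rw [div_le_iff₀ (by positivity)] at hn
  obtain ⟨C', hC', h'⟩ := all_b L hC h n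
  refine summable_of_sum_le (c := C' ^ 2 * Nn e lam Pr z ^ 2) (fun j => by positivity) (fun F => ?_)
  refine le_trans (Finset.sum_le_sum fun j _ => ?_) (h' z hz F)
  apply mul_le_mul_of_nonneg_right _ (sq_nonneg _)
  apply Real.exp_le_exp.2
  have : 0 ≤ √(lam j) := Real.sqrt_nonneg _
  nlinarith

end
end Pool.Agent.R853.Avg
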