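import Mathlib
import Pool.Agent.R853.Avg.Core2

set_option autoImplicit false
set_option linter.unusedSectionVars false

/-!
End of the abstract argument, and subordination.
-/

namespace Pool.Agent.R853.Avg

open MeasureTheory Set Filter Topology
open scoped RealInnerProductSpace Nat unitInterval
open Pool.Agent.H506R3.MagB (uu uu_ft uu_int uu_pos uu_cont)

section
variable {H : Type*} [NormedAddCommGroup H] [InnerProductSpace ℝ H] [CompleteSpace H]
variable {e : HilbertBasis ℕ ℝ H} {lam : ℕ → ℝ}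
variable {l0 : ℝ} {Pr : H →L[ℝ] H} {K : Set H} {D : Submodule ℝ H} {K' κ : ℝ}
  (L : LocData e lam l0 Pr K D K' κ)

include L

lemma cos_zero {a C : ℝ} (hC : 0 ≤ C)
    (h : ∀ z ∈ D, ∀ F : Finset ℕ, ∑ j ∈ F, Real.exp (-(2 * a * √(lam j))) * ⟪e j, z⟫ ^ 2 ≤
      C ^ 2 * Nn e lam Pr z ^ 2) {z y : H} (hz : z ∈ D) (hy : y ∈ K) (t : ℝ) :
    Ph e z y (fun j => Real.cos (t * √(lam j))) = 0 := by
  obtain ⟨zs, h0, hD, hs⟩ := powers L hz
  have hcoef := powers_coef L h0 hs
  have hlp : ∀ j, 0 < lam j := fun j => L.hl0.trans_le (L.hlam j)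
  set c : ℕ → ℝ := fun j => ⟪e j, z⟫ * ⟪e j, y⟫ with hc
  let f : ℕ → ℕ → ℝ := fun j k => (-1) ^ k * (t * √(lam j)) ^ (2 * k) / ((2 * k)! : ℝ) * c j
  have hrow : ∀ j, HasSum (fun k => ‖f j k‖) (Real.cosh (t * √(lam j)) * |c j|) := by
    intro j
    have h1 := (Real.hasSum_cosh (t * √(lam j))).mul_right |c j|
    refine hasSum_congr' (fun k => ?_) h1
    simp only [f]
    rw [Real.norm_eq_abs, abs_mul, abs_div, abs_mul, abs_pow, abs_neg, abs_one, one_pow, one_mul,
      abs_of_nonneg (by rw [pow_mul]; positivity : (0:ℝ) ≤ (t * √(lam j)) ^ (2 * k)),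
      abs_of_nonneg (by positivity : (0:ℝ) ≤ ((2 * k)! : ℝ))]
  have hcs : Summable (fun j => Real.cosh (t * √(lam j)) * |c j|) := by
    have h1 := ((decay L hC h hz |t|).add (parseval e y).summable)
    refine Summable.of_nonneg_of_le (fun j => by have := Real.cosh_pos (t * √(lam j)); positivity)
      (fun j => ?_) h1
    have h2 : Real.cosh (t * √(lam j)) ≤ Real.exp (|t| * √(lam j)) := by
      rw [← Real.cosh_abs, abs_mul, abs_of_nonneg (Real.sqrt_nonneg _), Real.cosh_eq]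
      have : Real.exp (-(|t| * √(lam j))) ≤ Real.exp (|t| * √(lam j)) :=
        Real.exp_le_exp.2 (by have : 0 ≤ |t| * √(lam j) := by positivity
                              linarith)
      linarith
    have h3 : Real.exp (2 * |t| * √(lam j)) = Real.exp (|t| * √(lam j)) ^ 2 := by
      rw [← Real.exp_nat_mul]
      congr 1
      push_cast
      ring
    rw [h3]
    simp only [hc]
    rw [abs_mul]
    have h4 : Real.cosh (t * √(lam j)) * (|⟪e j, z⟫| * |⟪e j, y⟫|) ≤
        (Real.exp (|t| * √(lam j)) * |⟪e j, z⟫|) * |⟪e j, y⟫| := by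
      rw [← mul_assoc]
      gcongr
    refine h4.trans ?_
    rw [← sq_abs ⟪e j, z⟫, ← sq_abs ⟪e j, y⟫, ← mul_pow]
    nlinarith [sq_nonneg (Real.exp (|t| * √(lam j)) * |⟪e j, z⟫| - |⟪e j, y⟫|),
      sq_nonneg (Real.exp (|t| * √(lam j)) * |⟪e j, z⟫|), sq_nonneg |⟪e j, y⟫|]
  have hsumm : Summable (Function.uncurry f) := by
    rw [← summable_norm_iff]
    rw [summable_prod_of_nonneg (fun p => norm_nonneg _)]
    refine ⟨fun j => (hrow j).summable, ?_⟩
    refine hcs.congr fun j => ?_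
    exact (hrow j).tsum_eq.symm
  have h1 : Ph e z y (fun j => Real.cos (t * √(lam j))) = ∑' j, ∑' k, f j k := by
    unfold Ph
    refine tsum_congr fun j => ?_
    exact ((Real.hasSum_cos (t * √(lam j))).mul_right (c j)).tsum_eq.symm
  rw [h1, ← hsumm.tsum_comm]
  have h2 : ∀ k, ∑' j, f j k = 0 := by
    intro k
    have h3 : HasSum (fun j => f j k) ((-1) ^ k * t ^ (2 * k) / ((2 * k)! : ℝ) * ⟪zs k, y⟫) := by
      have h4 := (hs_ip e (zs k) y).mul_left ((-1) ^ k * t ^ (2 * k) / ((2 * k)! : ℝ))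
      refine hasSum_congr' (fun j => ?_) h4
      simp only [f, hc]
      rw [hcoef, mul_pow, pow_mul (√(lam j)), Real.sq_sqrt (hlp j).le]
      ring
    rw [h3.tsum_eq, inner_zero L (hD k) hy, mul_zero]
  simp [h2]

lemma exp_zero {a C : ℝ} (hC : 0 ≤ C)
    (h : ∀ z ∈ D, ∀ F : Finset ℕ, ∑ j ∈ F, Real.exp (-(2 * a * √(lam j))) * ⟪e j, z⟫ ^ 2 ≤
      C ^ 2 * Nn e lam Pr z ^ 2) {z y : H} (hz : z ∈ D) (hy : y ∈ K) {r : ℝ} (hr : 0 ≤ r) :
    Ph e z y (fun j => Real.exp (-(√(lam j) * r))) = 0 := by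
  rcases hr.eq_or_lt with rfl | hr
  · simp only [mul_zero, neg_zero, Real.exp_zero]
    rw [Ph_one, inner_zero L hz hy]
  set c : ℕ → ℝ := fun j => ⟪e j, z⟫ * ⟪e j, y⟫ with hc
  let F : ℕ → ℝ → ℝ := fun j q => c j * (Real.cos (q * √(lam j)) * uu r q)
  have hbd : ∀ j q, ‖F j q‖ ≤ |c j| * uu r q := by
    intro j q
    rw [Real.norm_eq_abs]
    change |c j * (Real.cos (q * √(lam j)) * uu r q)| ≤ _
    rw [abs_mul (c j), abs_mul (Real.cos _), abs_of_pos (uu_pos _ q)]
    apply mul_le_mul_of_nonneg_left _ (abs_nonneg _)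
    have := Real.abs_cos_le_one (q * √(lam j))
    have := uu_pos r q
    nlinarith
  have hbi : ∀ j, Integrable (fun q => |c j| * uu r q) := fun j => (uu_int _ hr).const_mul _
  have hFi : ∀ j, Integrable (F j) := fun j =>
    (hbi j).mono' (Continuous.aestronglyMeasurable (by
      have := uu_cont r
      fun_prop)) (Eventually.of_forall (hbd j))
  have hsum : Summable (fun j => ∫ q, ‖F j q‖) := by
    refine Summable.of_nonneg_of_le (fun j => integral_nonneg fun q => norm_nonneg _)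
      (fun j => ?_) ((hs_abs e z y).mul_right (Real.pi * r))
    calc ∫ q, ‖F j q‖ ≤ ∫ q, |c j| * uu r q := integral_mono (hFi j).norm (hbi j) (hbd j)
      _ = _ := by rw [integral_const_mul, uu_mass _ hr]
  have hmain := hasSum_integral_of_summable_integral_norm hFi hsum
  have hpt : ∀ q, ∑' j, F j q = 0 := by
    intro q
    have h1 : ∀ j, F j q = uu r q * (Real.cos (q * √(lam j)) * (⟪e j, z⟫ * ⟪e j, y⟫)) := by
      intro j; simp only [F, hc]; ring
    rw [tsum_congr h1, tsum_mul_left]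
    have h2 := cos_zero L hC h hz hy q
    unfold Ph at h2
    rw [h2, mul_zero]
  have hval : ∀ j, ∫ q, F j q = (Real.pi * r) * (Real.exp (-(√(lam j) * r)) * c j) := by
    intro j
    simp only [F]
    rw [integral_const_mul, cos_int _ hr, abs_of_nonneg (Real.sqrt_nonneg _), mul_comm r (√(lam j))]
    ring
  simp_rw [hval, hpt] at hmain
  rw [integral_zero] at hmain
  have h5 := hmain.tsum_eq
  rw [tsum_mul_left] at h5
  have hpi := Real.pi_pos
  have h6 : Real.pi * r ≠ 0 := by positivity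
  rcases mul_eq_zero.1 h5 with h7 | h7
  · exact absurd h7 h6
  · exact h7

/-- The main abstract theorem. -/
theorem core (a C : ℝ) (hC : 0 ≤ C)
    (hobs : ∀ z ∈ D, ∀ M, 0 ≤ M →
      (∀ y ∈ K, ∀ r, 0 ≤ r → |Ph e z y (fun j => Real.exp (-(√(lam j) * r)))| ≤ M * ‖y‖) →
      ∀ F : Finset ℕ, ∑ j ∈ F, Real.exp (-(2 * a * √(lam j))) * ⟪e j, z⟫ ^ 2 ≤ C ^ 2 * M ^ 2) :
    ∀ z ∈ D, z = 0 := by
  intro z hz
  have h : ∀ z ∈ D, ∀ F : Finset ℕ, ∑ j ∈ F, Real.exp (-(2 * a * √(lam j))) * ⟪e j, z⟫ ^ 2 ≤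
      C ^ 2 * Nn e lam Pr z ^ 2 := fun z hz =>
    hobs z hz _ (Nn_nonneg L z) (fun y hy r hr => ph_exp_le L hz hy hr)
  have h2 := hobs z hz 0 le_rfl (fun y hy r hr => by
    rw [exp_zero L hC h hz hy hr, abs_zero, zero_mul])
  apply hb_ext e
  intro j
  have h3 := h2 {j}
  rw [Finset.sum_singleton] at h3
  have h4 : ⟪e j, z⟫ ^ 2 ≤ 0 := by
    by_contra hcon
    push Not at hcon
    have : 0 < Real.exp (-(2 * a * √(lam j))) * ⟪e j, z⟫ ^ 2 := by positivity
    simp at h3
    linarith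
  rw [inner_zero_right]
  exact pow_eq_zero_iff two_ne_zero |>.1 (le_antisymm h4 (sq_nonneg _))

omit L in
/-- Subordination. -/
theorem subord (hlp : ∀ j, 0 < lam j) {z y : H} {M : ℝ} (hM : 0 ≤ M)
    (h : ∀ r, 0 ≤ r → |Ph e z y (fun j => Real.exp (-(√(lam j) * r)))| ≤ M)
    {s γ : ℝ} (hs : 0 ≤ s) (hγ : 0 < γ) (hγ1 : γ ≤ 1 / 2) :
    |Ph e z y (fun j => Real.exp (-(s * lam j ^ γ)))| ≤ M := by
  obtain ⟨ν, hν, hint⟩ := exists_stable s (2 * γ) hs (by positivity) (by linarith)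
  have hsp : ∀ j, 0 < √(lam j) := fun j => Real.sqrt_pos.2 (hlp j)
  have hpow : ∀ j, √(lam j) ^ (2 * γ) = lam j ^ γ := by
    intro j
    rw [Real.sqrt_eq_rpow, ← Real.rpow_mul (hlp j).le]
    congr 1
    ring
  set c : ℕ → ℝ := fun j => ⟪e j, z⟫ * ⟪e j, y⟫ with hc
  let F : ℕ → I → ℝ := fun j a => (a : ℝ) ^ √(lam j) * c j
  have hbd : ∀ j a, ‖F j a‖ ≤ |c j| := by
    intro j a
    rw [Real.norm_eq_abs]
    change |(a : ℝ) ^ √(lam j) * c j| ≤ _
    rw [abs_mul, abs_of_nonneg (Real.rpow_nonneg a.2.1 _)]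
    have := Real.rpow_le_one a.2.1 a.2.2 (hsp j).le
    nlinarith [abs_nonneg (c j)]
  have hFc : ∀ j, Continuous (F j) := fun j =>
    ((Real.continuous_rpow_const (hsp j).le).comp continuous_subtype_val).mul continuous_const
  have hFi : ∀ j, Integrable (F j) ν := fun j =>
    Integrable.of_bound (hFc j).aestronglyMeasurable |c j| (Eventually.of_forall (hbd j))
  have hsum : Summable (fun j => ∫ a, ‖F j a‖ ∂ν) := by
    refine Summable.of_nonneg_of_le (fun j => integral_nonneg fun q => norm_nonneg _)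
      (fun j => ?_) ((hs_abs e z y).mul_right (ν.real Set.univ))
    calc ∫ a, ‖F j a‖ ∂ν ≤ ∫ a, |c j| ∂ν :=
          integral_mono (hFi j).norm (integrable_const _) (hbd j)
      _ = _ := by rw [integral_const]; simp [hc, mul_comm]
  have hmain := (hasSum_integral_of_summable_integral_norm hFi hsum).tsum_eq
  have hval : ∀ j, ∫ a, F j a ∂ν = Real.exp (-(s * lam j ^ γ)) * c j := by
    intro j
    simp only [F]
    rw [integral_mul_const, hint _ (hsp j), hpow]
  have h1 : Ph e z y (fun j => Real.exp (-(s * lam j ^ γ))) = ∫ a, ∑' j, F j a ∂ν := by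
    rw [← hmain]
    unfold Ph
    refine tsum_congr fun j => ?_
    rw [hval]
  -- bound on the integrand
  have hb1 : ∀ a : I, |∑' j, F j a| ≤ M := by
    intro a
    rcases a.2.1.eq_or_lt with ha | ha
    · have : ∀ j, F j a = 0 := by
        intro j
        simp only [F]
        rw [← ha, Real.zero_rpow (hsp j).ne', zero_mul]
      simp [this, hM]
    · have hr : 0 ≤ -Real.log a := by
        have := Real.log_nonpos a.2.1 a.2.2
        linarith
      have h2 := h _ hr
      have h3 : ∑' j, F j a = Ph e z y (fun j => Real.exp (-(√(lam j) * -Real.log a))) := by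
        unfold Ph
        refine tsum_congr fun j => ?_
        simp only [F]
        rw [Real.rpow_def_of_pos ha]
        congr 2
        ring
      rw [h3]
      exact h2
  -- regularise with a ^ (1/(n+1))
  have hcont : Continuous (fun a : I => ∑' j, F j a) :=
    continuous_tsum hFc (hs_abs e z y) hbd
  have hlim : Tendsto (fun n : ℕ => ∫ a, (∑' j, F j a) * (a : ℝ) ^ ((n : ℝ) + 1)⁻¹ ∂ν) atTop
      (𝓝 (∫ a, ∑' j, F j a ∂ν)) := by
    refine tendsto_integral_of_dominated_convergence (fun _ => M) ?_ (integrable_const _) ?_ ?_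
    · intro n
      refine Continuous.aestronglyMeasurable ?_
      exact hcont.mul ((Real.continuous_rpow_const (by positivity)).comp continuous_subtype_val)
    · intro n
      refine Eventually.of_forall fun a => ?_
      rw [norm_mul, Real.norm_eq_abs, Real.norm_eq_abs, abs_of_nonneg (Real.rpow_nonneg a.2.1 _)]
      have h2 := hb1 a
      have h3 := Real.rpow_le_one a.2.1 a.2.2 (z := ((n : ℝ) + 1)⁻¹) (by positivity)
      have h4 := Real.rpow_nonneg a.2.1 (((n : ℝ) + 1)⁻¹)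
      calc |∑' j, F j a| * (a : ℝ) ^ ((n : ℝ) + 1)⁻¹ ≤ M * 1 := by gcongr
        _ = M := mul_one _
    · refine Eventually.of_forall fun a => ?_
      rcases a.2.1.eq_or_lt with ha | ha
      · have : ∀ j, F j a = 0 := by
          intro j
          simp only [F]
          rw [← ha, Real.zero_rpow (hsp j).ne', zero_mul]
        simp [this]
      · have h2 : Tendsto (fun n : ℕ => ((n : ℝ) + 1)⁻¹) atTop (𝓝 0) :=
          tendsto_inv_atTop_zero.comp (tendsto_atTop_add_const_right _ _ tendsto_natCast_atTop_atTop)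
        have h3 : Tendsto (fun n : ℕ => (a : ℝ) ^ ((n : ℝ) + 1)⁻¹) atTop (𝓝 ((a : ℝ) ^ (0:ℝ))) :=
          (Real.continuousAt_const_rpow ha.ne').tendsto.comp h2
        rw [Real.rpow_zero] at h3
        simpa using h3.const_mul (∑' j, F j a)
  rw [h1]
  have hfin : ∀ n : ℕ, |∫ a, (∑' j, F j a) * (a : ℝ) ^ ((n : ℝ) + 1)⁻¹ ∂ν| ≤ M := by
    intro n
    have hn : (0:ℝ) < ((n : ℝ) + 1)⁻¹ := by positivity
    have hci : Continuous (fun a : I => (a : ℝ) ^ ((n : ℝ) + 1)⁻¹) :=
      (Real.continuous_rpow_const hn.le).comp continuous_subtype_val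
    have hi : Integrable (fun a : I => (a : ℝ) ^ ((n : ℝ) + 1)⁻¹) ν :=
      Integrable.of_bound hci.aestronglyMeasurable 1 (Eventually.of_forall (fun a => by
        rw [Real.norm_eq_abs, abs_of_nonneg (Real.rpow_nonneg a.2.1 _)]
        exact Real.rpow_le_one a.2.1 a.2.2 hn.le))
    have h2 : ‖∫ a, (∑' j, F j a) * (a : ℝ) ^ ((n : ℝ) + 1)⁻¹ ∂ν‖ ≤
        ∫ a, M * (a : ℝ) ^ ((n : ℝ) + 1)⁻¹ ∂ν := by
      refine norm_integral_le_of_norm_le (hi.const_mul M) (Eventually.of_forall fun a => ?_)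
      rw [norm_mul, Real.norm_eq_abs, Real.norm_eq_abs, abs_of_nonneg (Real.rpow_nonneg a.2.1 _)]
      exact mul_le_mul_of_nonneg_right (hb1 a) (Real.rpow_nonneg a.2.1 _)
    rw [Real.norm_eq_abs, integral_const_mul, hint _ hn] at h2
    refine h2.trans ?_
    have h3 : Real.exp (-(s * ((n : ℝ) + 1)⁻¹ ^ (2 * γ))) ≤ 1 := by
      apply Real.exp_le_one_iff.2
      have : 0 ≤ s * ((n : ℝ) + 1)⁻¹ ^ (2 * γ) := by positivity
      linarith
    nlinarith
  exact le_of_tendsto' hlim.abs hfin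

end
end Pool.Agent.R853.Avg
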