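import Mathlib

set_option autoImplicit false

/-!
Definitions for averaged null controllability of the fractional heat equation with a random
diffusion coefficient.  `E` is a finite-dimensional real inner product space, such as `ℝⁿ`.
-/

namespace Pool.Agent.R853.Avg

open MeasureTheory
open scoped RealInnerProductSpace

/-! ### The Dirichlet Laplacian -/

section
variable {E : Type*} [NormedAddCommGroup E] [InnerProductSpace ℝ E] [FiniteDimensional ℝ E]
  [MeasurableSpace E] [BorelSpace E]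

/-- `φ` is a smooth function with compact support contained in `G`. -/
def IsTest (G : Set E) (φ : E → ℝ) : Prop :=
  ContDiff ℝ (⊤ : ℕ∞) φ ∧ HasCompactSupport φ ∧ tsupport φ ⊆ G

/-- Lebesgue measure on `G` -/
noncomputable def vol (G : Set E) : Measure E := volume.restrict G

/-- `L²(G; F)` -/
def L2 (G : Set E) (F : Type*) [NormedAddCommGroup F] : Type _ := Lp F 2 (vol G)

/-- the norm of `L²(G; F)` -/
noncomputable instance l2norm (G : Set E) (F : Type*) [NormedAddCommGroup F] :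
    NormedAddCommGroup (L2 G F) :=
  Lp.instNormedAddCommGroup (E := F) (p := 2) (μ := vol G)

/-- the inner product of `L²(G; F)` -/
noncomputable instance l2inner (G : Set E) (F : Type*) [NormedAddCommGroup F]
    [InnerProductSpace ℝ F] : InnerProductSpace ℝ (L2 G F) :=
  L2.innerProductSpace (𝕜 := ℝ) (E := F) (μ := vol G)

/-- the function (defined almost everywhere) represented by an element of `L²(G; F)` -/
noncomputable def fn {G : Set E} {F : Type*} [NormedAddCommGroup F] (u : L2 G F) : E → F :=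
  ((show Lp F 2 (vol G) from u) : E → F)

/-- The pairs `(φ, ∇φ)`, `φ ∈ C_c^∞(G)`, in `L²(G) × L²(G; E)`. -/
def Pairs (G : Set E) : Set (L2 G ℝ × L2 G E) :=
  {p | ∃ φ, IsTest G φ ∧ fn p.1 =ᵐ[vol G] φ ∧ fn p.2 =ᵐ[vol G] gradient φ}

/-- `u ∈ H¹₀(G)` with (weak) gradient `g`: the pair `(u, g)` is a limit in
`L²(G) × L²(G; E)` of pairs `(φ, ∇φ)`, `φ ∈ C_c^∞(G)`. -/
def InH10 (G : Set E) (u : L2 G ℝ) (g : L2 G E) : Prop := (u, g) ∈ closure (Pairs G)

/-- `u ∈ H¹₀(G)` and `-Δ u = l u` weakly in `G`. -/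
def DirichletEigenfunction (G : Set E) (u : L2 G ℝ) (l : ℝ) : Prop :=
  ∃ g, InH10 G u g ∧
    ∀ φ, IsTest G φ → ∫ x, ⟪fn g x, gradient φ x⟫ ∂(vol G) = l * ∫ x, fn u x * φ x ∂(vol G)

/-- `(e_j)` is a Hilbert basis of `L²(G)` of eigenfunctions of the Dirichlet Laplacian, with
eigenvalues `0 < lam 0 ≤ lam 1 ≤ …`. -/
def DirichletBasis (G : Set E) (e : HilbertBasis ℕ ℝ (L2 G ℝ)) (lam : ℕ → ℝ) : Prop :=
  0 < lam 0 ∧ Monotone lam ∧ ∀ j, DirichletEigenfunction G (e j) (lam j)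

/-- `L²(G₀)`, as the functions of `L²(G)` vanishing outside `G₀`. -/
def ctrlSpace (G G0 : Set E) : Set (L2 G ℝ) := {v | ∀ᵐ x ∂(vol G), x ∉ G0 → fn v x = 0}

end

/-! ### Control -/

section
variable {H : Type*} [NormedAddCommGroup H] [InnerProductSpace ℝ H]

/-- `y` is the (mild) solution on `[0, T]` of `y' + a A^γ y = u`, `y(0) = y0`, where
`A^γ e_j = lam_j^γ e_j`: the variation of constants formula, coefficient by coefficient. -/
def IsSol (e : HilbertBasis ℕ ℝ H) (lam : ℕ → ℝ) (γ a T : ℝ) (y0 : H) (u y : ℝ → H) : Prop :=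
  ∀ t ∈ Set.Icc 0 T, ∀ j, ⟪e j, y t⟫ = Real.exp (-(a * lam j ^ γ * t)) * ⟪e j, y0⟫ +
    ∫ s in (0:ℝ)..t, Real.exp (-(a * lam j ^ γ * (t - s))) * ⟪e j, u s⟫

/-- Null controllability in average of `y' + α(ω) A^γ y = u` at time `T`, with controls
`u ∈ L²(0, T; H)` having their values in `K`. -/
def NullControllableInAverage {Ω : Type*} [MeasurableSpace Ω] (P : Measure Ω) (α : Ω → ℝ)
    (e : HilbertBasis ℕ ℝ H) (lam : ℕ → ℝ) (γ T : ℝ) (K : Set H) : Prop :=
  ∃ C > 0, ∀ y0 : H, ∃ u : ℝ → H, MemLp u 2 (volume.restrict (Set.Ioc 0 T)) ∧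
    (∀ᵐ t ∂(volume.restrict (Set.Ioc 0 T)), u t ∈ K) ∧
    √(∫ t in (0:ℝ)..T, ‖u t‖ ^ 2) ≤ C * ‖y0‖ ∧
    ∃ y : Ω → ℝ → H, (∀ ω, IsSol e lam γ (α ω) T y0 u (y ω)) ∧
      Integrable (fun ω => y ω T) P ∧ ∫ ω, y ω T ∂P = 0

end

end Pool.Agent.R853.Avg
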