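import Mathlib
import Pool.Agent.R853.Avg.Stmt

set_option autoImplicit false

/-!
Definitions for averaged null controllability of the fractional heat equation with a random
diffusion coefficient.
-/

namespace Pool.Agent.R853.Avg

open MeasureTheory
open scoped RealInnerProductSpace

/-! ### The Dirichlet Laplacian -/

section
variable {E : Type*} [NormedAddCommGroup E] [InnerProductSpace ℝ E] [FiniteDimensional ℝ E]
  [MeasurableSpace E] [BorelSpace E]

/-- The pairs `(φ, ∇φ)`, `φ ∈ C_c^∞(G)`, in `L²(G) × L²(G; E)`. -/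
def SP (G : Set E) : Set (Lp ℝ 2 (volume.restrict G) × Lp E 2 (volume.restrict G)) :=
  {p | ∃ φ, IsTest G φ ∧ p.1 =ᵐ[volume.restrict G] φ ∧ p.2 =ᵐ[volume.restrict G] gradient φ}

/-- `u ∈ H¹₀(G)` with (weak) gradient `g`: the pair `(u, g)` is a limit in
`L²(G) × L²(G; E)` of pairs `(φ, ∇φ)`, `φ ∈ C_c^∞(G)`. -/
def IsH10 (G : Set E) (u : Lp ℝ 2 (volume.restrict G)) (g : Lp E 2 (volume.restrict G)) : Prop :=
  (u, g) ∈ closure (SP G)

/-- `u ∈ H¹₀(G)` and `-Δ u = l u` weakly in `G`. -/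
def IsDirichletEigenfunction (G : Set E)
    (u : Lp ℝ 2 (volume.restrict G)) (l : ℝ) : Prop :=
  ∃ g, IsH10 G u g ∧ ∀ φ, IsTest G φ →
    ∫ x in G, ⟪(g x : E), gradient φ x⟫ = l * ∫ x in G, u x * φ x

/-- `(e_j)` is a Hilbert basis of `L²(G)` of eigenfunctions of the Dirichlet Laplacian, with
eigenvalues `0 < lam 0 ≤ lam 1 ≤ …`. -/
def IsDirichletBasis (G : Set E)
    (e : HilbertBasis ℕ ℝ (Lp ℝ 2 (volume.restrict G))) (lam : ℕ → ℝ) : Prop :=
  0 < lam 0 ∧ Monotone lam ∧ ∀ j, IsDirichletEigenfunction G (e j) (lam j)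

/-- `L²(G₀)`, as the functions of `L²(G)` vanishing outside `G₀`. -/
def L2sub (G G0 : Set E) : Set (Lp ℝ 2 (volume.restrict G)) :=
  {v | ∀ᵐ x ∂(volume.restrict G), x ∉ G0 → v x = 0}

end

end Pool.Agent.R853.Avg
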