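import Mathlib
import Pool.Agent.R853.Avg.Core3
import Pool.Agent.R853.Avg.Defs

set_option autoImplicit false
set_option linter.unusedSectionVars false

/-!
Duality: controllability in average implies an observability inequality.
-/

namespace Pool.Agent.R853.Avg

open MeasureTheory Set Filter Topology
open scoped RealInnerProductSpace Nat unitInterval

section
variable {H : Type*} [NormedAddCommGroup H] [InnerProductSpace ℝ H] [CompleteSpace H]
variable {e : HilbertBasis ℕ ℝ H} {lam : ℕ → ℝ}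
variable {Ω : Type*} [MeasurableSpace Ω] {P : Measure Ω} [IsProbabilityMeasure P] {α : Ω → ℝ}

/-- `E exp (-α x)` -/
noncomputable def lap (P : Measure Ω) (α : Ω → ℝ) (x : ℝ) : ℝ := ∫ ω, Real.exp (-(α ω * x)) ∂P

lemma lap_int (hα : Measurable α) (hα0 : ∀ ω, 0 ≤ α ω) {x : ℝ} (hx : 0 ≤ x) :
    Integrable (fun ω => Real.exp (-(α ω * x))) P := by
  refine Integrable.of_bound (by fun_prop) 1 (Eventually.of_forall fun ω => ?_)
  rw [Real.norm_eq_abs, abs_of_pos (Real.exp_pos _)]
  apply Real.exp_le_one_iff.2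
  have := mul_nonneg (hα0 ω) hx
  linarith

lemma lap_nonneg (x : ℝ) : 0 ≤ lap P α x := integral_nonneg fun _ => (Real.exp_pos _).le

lemma lap_le_one (hα : Measurable α) (hα0 : ∀ ω, 0 ≤ α ω) {x : ℝ} (hx : 0 ≤ x) :
    lap P α x ≤ 1 := by
  unfold lap
  calc ∫ ω, Real.exp (-(α ω * x)) ∂P ≤ ∫ _, (1:ℝ) ∂P := by
        refine integral_mono (lap_int hα hα0 hx) (integrable_const _) fun ω => ?_
        apply Real.exp_le_one_iff.2
        have := mul_nonneg (hα0 ω) hx
        linarith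
    _ = 1 := by simp

lemma lap_jensen (hα : Measurable α) (hα0 : ∀ ω, 0 ≤ α ω) (hi : Integrable α P) {x : ℝ}
    (hx : 0 ≤ x) : Real.exp (-((∫ ω, α ω ∂P) * x)) ≤ lap P α x := by
  set m := ∫ ω, α ω ∂P with hm
  have h1 : ∀ ω, Real.exp (-(m * x)) * (1 - x * (α ω - m)) ≤ Real.exp (-(α ω * x)) := by
    intro ω
    have h2 := Real.add_one_le_exp (-(x * (α ω - m)))
    calc Real.exp (-(m * x)) * (1 - x * (α ω - m))
        ≤ Real.exp (-(m * x)) * Real.exp (-(x * (α ω - m))) := by
          apply mul_le_mul_of_nonneg_left _ (Real.exp_pos _).le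
          linarith
      _ = _ := by rw [← Real.exp_add]; congr 1; ring
  have hi2 : Integrable (fun ω => Real.exp (-(m * x)) * (1 - x * (α ω - m))) P := by
    have : Integrable (fun ω => α ω - m) P := hi.sub (integrable_const _)
    exact ((integrable_const _).sub (this.const_mul x)).const_mul _
  have h3 := integral_mono hi2 (lap_int hα hα0 hx) h1
  have h4 : ∫ ω, Real.exp (-(m * x)) * (1 - x * (α ω - m)) ∂P = Real.exp (-(m * x)) := by
    have hi3 : Integrable (fun ω => α ω - m) P := hi.sub (integrable_const _)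
    rw [integral_const_mul, integral_sub (integrable_const _) (hi3.const_mul x),
      integral_const_mul, integral_sub hi (integrable_const _)]
    simp [← hm]
  rw [h4] at h3
  exact h3

lemma avg_bound (hlp : ∀ j, 0 < lam j) (hα : Measurable α) (hα0 : ∀ ω, 0 ≤ α ω) {z y : H} {M γ t : ℝ}
    (ht : 0 ≤ t) 
    (h : ∀ s, 0 ≤ s → |Ph e z y (fun j => Real.exp (-(s * lam j ^ γ)))| ≤ M) :
    |Ph e z y (fun j => lap P α (lam j ^ γ * t))| ≤ M := by
  have hx : ∀ j, 0 ≤ lam j ^ γ * t := fun j => mul_nonneg (Real.rpow_nonneg (hlp j).le _) ht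
  set c : ℕ → ℝ := fun j => ⟪e j, z⟫ * ⟪e j, y⟫ with hc
  let F : ℕ → Ω → ℝ := fun j ω => Real.exp (-(α ω * (lam j ^ γ * t))) * c j
  have hbd : ∀ j ω, ‖F j ω‖ ≤ |c j| := by
    intro j ω
    rw [Real.norm_eq_abs]
    change |Real.exp (-(α ω * (lam j ^ γ * t))) * c j| ≤ _
    rw [abs_mul, abs_of_pos (Real.exp_pos _)]
    have : Real.exp (-(α ω * (lam j ^ γ * t))) ≤ 1 := by
      apply Real.exp_le_one_iff.2
      have := mul_nonneg (hα0 ω) (hx j)
      linarith
    nlinarith [abs_nonneg (c j)]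
  have hFi : ∀ j, Integrable (F j) P := fun j => (lap_int hα hα0 (hx j)).mul_const _
  have hsum : Summable (fun j => ∫ ω, ‖F j ω‖ ∂P) := by
    refine Summable.of_nonneg_of_le (fun j => integral_nonneg fun q => norm_nonneg _)
      (fun j => ?_) (hs_abs e z y)
    calc ∫ ω, ‖F j ω‖ ∂P ≤ ∫ _, |c j| ∂P := integral_mono (hFi j).norm (integrable_const _) (hbd j)
      _ = _ := by simp [hc]
  have hmain := (hasSum_integral_of_summable_integral_norm hFi hsum).tsum_eq
  have h1 : Ph e z y (fun j => lap P α (lam j ^ γ * t)) = ∫ ω, ∑' j, F j ω ∂P := by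
    rw [← hmain]
    unfold Ph
    refine tsum_congr fun j => ?_
    simp only [F]
    rw [integral_mul_const]
    rfl
  rw [h1, ← Real.norm_eq_abs]
  have h2 : ∀ ω, ‖∑' j, F j ω‖ ≤ M := by
    intro ω
    have h3 := h (α ω * t) (mul_nonneg (hα0 ω) ht)
    have h4 : ∑' j, F j ω = Ph e z y (fun j => Real.exp (-(α ω * t * lam j ^ γ))) := by
      unfold Ph
      refine tsum_congr fun j => ?_
      simp only [F]
      congr 3
      ring
    rw [h4]
    exact h3
  have h5 := norm_integral_le_of_norm_le_const (μ := P) (Eventually.of_forall h2)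
  simpa using h5

lemma Ph_sub (z w y : H) {F : ℕ → ℝ} {B : ℝ} (hB : ∀ j, |F j| ≤ B) :
    Ph e (z - w) y F = Ph e z y F - Ph e w y F := by
  unfold Ph
  rw [← (Ph_summable e z y hB).tsum_sub (Ph_summable e w y hB)]
  refine tsum_congr fun j => ?_
  rw [inner_sub_right]
  ring

theorem duality (hlp : ∀ j, 0 < lam j) (hα : Measurable α) (hα0 : ∀ ω, 0 ≤ α ω)
    {γ T : ℝ} (hT : 0 < T) {K : Set H} {C : ℝ} (hC : 0 < C)
    (hnc : ∀ y0 : H, ∃ u : ℝ → H, MemLp u 2 (volume.restrict (Set.Ioc 0 T)) ∧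
      (∀ᵐ t ∂(volume.restrict (Set.Ioc 0 T)), u t ∈ K) ∧
      √(∫ t in (0:ℝ)..T, ‖u t‖ ^ 2) ≤ C * ‖y0‖ ∧
      ∃ y : Ω → ℝ → H, (∀ ω, IsSol e lam γ (α ω) T y0 u (y ω)) ∧
        Integrable (fun ω => y ω T) P ∧ ∫ ω, y ω T ∂P = 0)
    {z : H} {M : ℝ} (hM : 0 ≤ M)
    (h : ∀ y ∈ K, ∀ t, 0 ≤ t → |Ph e z y (fun j => lap P α (lam j ^ γ * t))| ≤ M * ‖y‖)
    (F : Finset ℕ) :
    ∑ j ∈ F, lap P α (lam j ^ γ * T) ^ 2 * ⟪e j, z⟫ ^ 2 ≤ (√T * C) ^ 2 * M ^ 2 := by
  have hlg : ∀ j, 0 ≤ lam j ^ γ := fun j => Real.rpow_nonneg (hlp j).le _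
  have hlapabs : ∀ t, 0 ≤ t → ∀ j, |lap P α (lam j ^ γ * t)| ≤ 1 := by
    intro t ht j
    rw [abs_of_nonneg (lap_nonneg _)]
    exact lap_le_one hα hα0 (mul_nonneg (hlg j) ht)
  -- the claim for a finite set with an error
  have key : ∀ F : Finset ℕ, ∑ j ∈ F, lap P α (lam j ^ γ * T) ^ 2 * ⟪e j, z⟫ ^ 2 ≤
      (√T * C) ^ 2 * (M + ‖z - ∑ j ∈ F, ⟪e j, z⟫ • e j‖) ^ 2 := by
    intro F
    set zF := ∑ j ∈ F, ⟪e j, z⟫ • e j with hzF
    set δ := ‖z - zF‖ with hδ
    set y0 : H := ∑ j ∈ F, (lap P α (lam j ^ γ * T) * ⟪e j, z⟫) • e j with hy0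
    have hcin : ∀ (c : ℕ → ℝ) (j : ℕ), j ∈ F → ⟪e j, ∑ i ∈ F, c i • e i⟫ = c j := by
      intro c j hj
      exact e.orthonormal.inner_right_sum c hj
    have hcout : ∀ (c : ℕ → ℝ) (j : ℕ), j ∉ F → ⟪e j, ∑ i ∈ F, c i • e i⟫ = 0 := by
      intro c j hj
      rw [inner_sum]
      refine Finset.sum_eq_zero fun i hi => ?_
      rw [inner_smul_right, e.orthonormal.2 (by rintro rfl; exact hj hi), mul_zero]
    have hny0 : ‖y0‖ ^ 2 = ∑ j ∈ F, lap P α (lam j ^ γ * T) ^ 2 * ⟪e j, z⟫ ^ 2 := by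
      have h1 := parseval e y0
      have h2 : HasSum (fun j => ⟪e j, y0⟫ ^ 2) (∑ j ∈ F, ⟪e j, y0⟫ ^ 2) := by
        apply hasSum_sum_of_ne_finset_zero
        intro j hj
        rw [hy0, hcout _ j hj]
        norm_num
      rw [h1.unique h2]
      refine Finset.sum_congr rfl fun j hj => ?_
      rw [hy0, hcin _ j hj, mul_pow]
    obtain ⟨u, hu2, huK, hucost, y, hysol, hyint, hy0'⟩ := hnc y0
    set μT := volume.restrict (Set.Ioc 0 T) with hμT
    have huint : Integrable u μT := hu2.integrable one_le_two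
    have hujint : ∀ j, Integrable (fun s => ⟪e j, u s⟫) μT := fun j => huint.const_inner (e j)
    -- the moment identity
    have hboth : ∀ j, Integrable (fun s => lap P α (lam j ^ γ * (T - s)) * ⟪e j, u s⟫) μT ∧
        ∫ s, lap P α (lam j ^ γ * (T - s)) * ⟪e j, u s⟫ ∂μT =
        -(lap P α (lam j ^ γ * T) * ⟪e j, y0⟫) := by
      intro j
      have h1 : ∫ ω, ⟪e j, y ω T⟫ ∂P = 0 := by
        rw [integral_inner hyint, hy0', inner_zero_right]
      have h2 : ∀ ω, ⟪e j, y ω T⟫ = Real.exp (-(α ω * (lam j ^ γ * T))) * ⟪e j, y0⟫ +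
          ∫ s, Real.exp (-(α ω * (lam j ^ γ * max (T - s) 0))) * ⟪e j, u s⟫ ∂μT := by
        intro ω
        rw [hysol ω T ⟨hT.le, le_rfl⟩ j, intervalIntegral.integral_of_le hT.le]
        congr 1
        · congr 2; ring
        · refine setIntegral_congr_fun measurableSet_Ioc fun s hs => ?_
          rw [max_eq_left (by linarith [hs.2])]
          congr 3
          ring
      have hprod : Integrable (Function.uncurry fun (ω : Ω) (s : ℝ) =>
          Real.exp (-(α ω * (lam j ^ γ * max (T - s) 0))) * ⟪e j, u s⟫) (P.prod μT) := by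
        have h3 : Integrable (fun p : Ω × ℝ => ⟪e j, u p.2⟫) (P.prod μT) :=
          (hujint j).comp_snd P
        refine h3.norm.mono' ?_ (Eventually.of_forall fun p => ?_)
        · refine AEStronglyMeasurable.mul ?_ h3.aestronglyMeasurable
          refine Measurable.aestronglyMeasurable ?_
          fun_prop
        · simp only [Function.uncurry_def]
          rw [norm_mul, Real.norm_eq_abs, abs_of_pos (Real.exp_pos _)]
          have h4 : Real.exp (-(α p.1 * (lam j ^ γ * max (T - p.2) 0))) ≤ 1 := by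
            apply Real.exp_le_one_iff.2
            have := mul_nonneg (hα0 p.1) (mul_nonneg (hlg j) (le_max_right (T - p.2) 0))
            linarith
          nlinarith [norm_nonneg ⟪e j, u p.2⟫]
      simp_rw [h2] at h1
      have hA : Integrable (fun ω => Real.exp (-(α ω * (lam j ^ γ * T))) * ⟪e j, y0⟫) P :=
        (lap_int hα hα0 (mul_nonneg (hlg j) hT.le)).mul_const _
      have hI : Integrable (fun ω =>
          ∫ s, Real.exp (-(α ω * (lam j ^ γ * max (T - s) 0))) * ⟪e j, u s⟫ ∂μT) P :=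
        hprod.integral_prod_left
      have hI2 : Integrable (fun s =>
          ∫ ω, Real.exp (-(α ω * (lam j ^ γ * max (T - s) 0))) * ⟪e j, u s⟫ ∂P) μT :=
        hprod.integral_prod_right
      have heq : ∀ᵐ s ∂μT, ∫ ω, Real.exp (-(α ω * (lam j ^ γ * max (T - s) 0))) * ⟪e j, u s⟫ ∂P =
          lap P α (lam j ^ γ * (T - s)) * ⟪e j, u s⟫ := by
        filter_upwards [ae_restrict_mem measurableSet_Ioc] with s hs
        rw [max_eq_left (by linarith [hs.2]), integral_mul_const]
        rfl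
      rw [integral_add hA hI, integral_mul_const, integral_integral_swap hprod,
        integral_congr_ae heq] at h1
      refine ⟨hI2.congr heq, ?_⟩
      have h6 : lap P α (lam j ^ γ * T) = ∫ ω, Real.exp (-(α ω * (lam j ^ γ * T))) ∂P := rfl
      rw [h6]
      linarith
    have hti := fun j => (hboth j).1
    have hmom := fun j => (hboth j).2
    have hsum : ∫ s, ∑ j ∈ F, ⟪e j, z⟫ * (lap P α (lam j ^ γ * (T - s)) * ⟪e j, u s⟫) ∂μT =
        -‖y0‖ ^ 2 := by
      rw [integral_finsetSum _ (fun j _ => (hti j).const_mul _), hny0, ← Finset.sum_neg_distrib]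
      refine Finset.sum_congr rfl fun j hj => ?_
      rw [integral_const_mul, hmom, hy0, hcin _ j hj]
      ring
    have hpt : ∀ᵐ s ∂μT, ‖∑ j ∈ F, ⟪e j, z⟫ * (lap P α (lam j ^ γ * (T - s)) * ⟪e j, u s⟫)‖ ≤
        (M + δ) * ‖u s‖ := by
      filter_upwards [huK, ae_restrict_mem measurableSet_Ioc] with s hsK hs
      have hts : 0 ≤ T - s := by linarith [hs.2]
      have hB := hlapabs (T - s) hts
      have h1 : ∑ j ∈ F, ⟪e j, z⟫ * (lap P α (lam j ^ γ * (T - s)) * ⟪e j, u s⟫) =
          Ph e zF (u s) (fun j => lap P α (lam j ^ γ * (T - s))) := by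
        unfold Ph
        rw [tsum_eq_sum (s := F)]
        · refine Finset.sum_congr rfl fun j hj => ?_
          rw [hzF, hcin _ j hj]
          ring
        · intro j hj
          rw [hzF, hcout _ j hj]
          ring
      have h2 := Ph_sub z zF (u s) (e := e) hB
      have h3 : Ph e zF (u s) (fun j => lap P α (lam j ^ γ * (T - s))) =
          Ph e z (u s) (fun j => lap P α (lam j ^ γ * (T - s))) -
          Ph e (z - zF) (u s) (fun j => lap P α (lam j ^ γ * (T - s))) := by rw [h2]; ring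
      rw [h1, h3, Real.norm_eq_abs]
      refine (abs_sub _ _).trans ?_
      have h4 := h _ hsK _ hts
      have h5 := Ph_le e (z - zF) (u s) hB
      rw [one_mul] at h5
      calc _ ≤ M * ‖u s‖ + δ * ‖u s‖ := add_le_add h4 h5
        _ = _ := by ring
    have h1 : ‖y0‖ ^ 2 ≤ (M + δ) * ∫ s, ‖u s‖ ∂μT := by
      have h2 := norm_integral_le_of_norm_le (huint.norm.const_mul (M + δ)) hpt
      rw [hsum, integral_const_mul, norm_neg, Real.norm_eq_abs, abs_of_nonneg (sq_nonneg _)] at h2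
      exact h2
    have h2 : (∫ s, ‖u s‖ ∂μT) ≤ √T * √(∫ s, ‖u s‖ ^ 2 ∂μT) := by
      have hsq : Integrable (fun s => ‖u s‖ ^ 2) μT := by
        simpa using hu2.integrable_norm_pow two_ne_zero
      set I1 := ∫ s, ‖u s‖ ∂μT with hI1
      set I2 := ∫ s, ‖u s‖ ^ 2 ∂μT with hI2
      have hI10 : 0 ≤ I1 := integral_nonneg fun s => norm_nonneg _
      have hmass : μT.real Set.univ = T := by
        rw [hμT]
        simp [hT.le]
      have h5 : 0 ≤ ∫ s, (T * ‖u s‖ - I1) ^ 2 ∂μT := integral_nonneg fun s => sq_nonneg _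
      have h6 : ∫ s, (T * ‖u s‖ - I1) ^ 2 ∂μT = T ^ 2 * I2 - T * I1 ^ 2 := by
        have h7 : ∀ s, (T * ‖u s‖ - I1) ^ 2 = T ^ 2 * ‖u s‖ ^ 2 - 2 * T * I1 * ‖u s‖ + I1 ^ 2 := by
          intro s; ring
        simp_rw [h7]
        have hA : Integrable (fun s => T ^ 2 * ‖u s‖ ^ 2) μT := hsq.const_mul _
        have hB : Integrable (fun s => 2 * T * I1 * ‖u s‖) μT := huint.norm.const_mul _
        have hAB : Integrable (fun s => T ^ 2 * ‖u s‖ ^ 2 - 2 * T * I1 * ‖u s‖) μT := hA.sub hB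
        rw [integral_add hAB (integrable_const _), integral_sub hA hB, integral_const_mul,
          integral_const_mul, integral_const, hmass]
        simp only [smul_eq_mul]
        ring
      rw [h6] at h5
      have h8 : I1 ^ 2 ≤ T * I2 := by
        by_contra hcon
        push Not at hcon
        nlinarith
      rw [← Real.sqrt_mul hT.le]
      exact Real.le_sqrt_of_sq_le h8
    rw [intervalIntegral.integral_of_le hT.le] at hucost
    have hδ0 : 0 ≤ M + δ := by positivity
    have h3 : ‖y0‖ ^ 2 ≤ (√T * C * (M + δ)) * ‖y0‖ := by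
      calc ‖y0‖ ^ 2 ≤ (M + δ) * (√T * (C * ‖y0‖)) := by
            refine h1.trans (mul_le_mul_of_nonneg_left ?_ hδ0)
            exact h2.trans (mul_le_mul_of_nonneg_left hucost (Real.sqrt_nonneg _))
        _ = _ := by ring
    have h4 : ‖y0‖ ≤ √T * C * (M + δ) := by
      rcases (norm_nonneg y0).eq_or_lt with h5 | h5
      · rw [← h5]; positivity
      · rw [sq] at h3
        exact le_of_mul_le_mul_right h3 h5
    rw [← hny0, ← mul_pow]
    exact pow_le_pow_left₀ (norm_nonneg _) h4 2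
  -- enlarge the finite set
  have hlim : Tendsto (fun F' : Finset ℕ => (√T * C) ^ 2 *
      (M + ‖z - ∑ j ∈ F', ⟪e j, z⟫ • e j‖) ^ 2) atTop (𝓝 ((√T * C) ^ 2 * (M + 0) ^ 2)) := by
    apply Tendsto.const_mul
    apply Tendsto.pow
    apply Tendsto.const_add
    have h1 := e.hasSum_repr z
    have h1' : (fun i => e.repr z i • e i) = fun i => ⟪e i, z⟫ • e i :=
      funext fun i => by rw [e.repr_apply_apply]
    rw [h1'] at h1
    have h2 : Tendsto (fun F' : Finset ℕ => ∑ j ∈ F', ⟪e j, z⟫ • e j) atTop (𝓝 z) := h1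
    have h3 := (tendsto_const_nhds (x := z)).sub h2
    rw [sub_self] at h3
    simpa using h3.norm
  rw [add_zero] at hlim
  refine ge_of_tendsto hlim ?_
  filter_upwards [eventually_ge_atTop F] with F' hF'
  refine le_trans ?_ (key F')
  exact Finset.sum_le_sum_of_subset_of_nonneg hF' (fun j _ _ => by positivity)

end
end Pool.Agent.R853.Avg
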