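import Mathlib
import Pool.Agent.R853.Avg.Ctl

set_option autoImplicit false
set_option linter.unusedSectionVars false

namespace Pool.Agent.R853.Avg

open MeasureTheory Set Filter Topology
open scoped RealInnerProductSpace Nat unitInterval

section
variable {H : Type*} [NormedAddCommGroup H] [InnerProductSpace ℝ H] [CompleteSpace H]
variable {e : HilbertBasis ℕ ℝ H} {lam : ℕ → ℝ}
variable {l0 : ℝ} {Pr : H →L[ℝ] H} {K : Set H} {D : Submodule ℝ H} {K' κ : ℝ}
variable {Ω : Type*} [MeasurableSpace Ω] {P : Measure Ω} [IsProbabilityMeasure P] {α : Ω → ℝ}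

theorem abs_final (L : LocData e lam l0 Pr K D K' κ) (hD : ∃ z ∈ D, z ≠ 0)
    (hα : Measurable α) (hα0 : ∀ ω, 0 ≤ α ω) (hi : Integrable α P)
    {γ T : ℝ} (hγ : 0 < γ) (hγ1 : γ ≤ 1 / 2) (hT : 0 < T) :
    ¬ NullControllableInAverage P α e lam γ T K := by
  rintro ⟨C, hC, hnc⟩
  obtain ⟨z, hz, hz0⟩ := hD
  have hlp : ∀ j, 0 < lam j := fun j => L.hl0.trans_le (L.hlam j)
  set m := ∫ ω, α ω ∂P with hm
  have hm0 : 0 ≤ m := integral_nonneg hα0
  refine hz0 (core L (m * T * l0 ^ (γ - 1 / 2)) (√T * C) (by positivity) ?_ z hz)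
  intro z hz M hM h F
  have h1 : ∀ y ∈ K, ∀ t, 0 ≤ t → |Ph e z y (fun j => lap P α (lam j ^ γ * t))| ≤ M * ‖y‖ := by
    intro y hy t ht
    refine avg_bound hlp hα hα0 ht fun s hs => ?_
    exact subord hlp (by positivity) (h y hy) hs hγ hγ1
  have h2 := duality hlp hα hα0 hT hC hnc hM h1 F
  refine le_trans (Finset.sum_le_sum fun j _ => ?_) h2
  apply mul_le_mul_of_nonneg_right _ (sq_nonneg _)
  have hx : 0 ≤ lam j ^ γ * T := mul_nonneg (Real.rpow_nonneg (hlp j).le _) hT.le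
  have h3 := lap_jensen (P := P) hα hα0 hi hx
  rw [← hm] at h3
  have h4 : Real.exp (-(m * T * l0 ^ (γ - 1 / 2) * √(lam j))) ≤
      Real.exp (-(m * (lam j ^ γ * T))) := by
    apply Real.exp_le_exp.2
    have h5 : lam j ^ γ = lam j ^ (γ - 1 / 2) * √(lam j) := by
      rw [Real.sqrt_eq_rpow, ← Real.rpow_add (hlp j)]
      congr 1
      ring
    have h6 : lam j ^ (γ - 1 / 2) ≤ l0 ^ (γ - 1 / 2) :=
      Real.rpow_le_rpow_of_nonpos L.hl0 (L.hlam j) (by linarith)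
    have h7 : lam j ^ γ ≤ l0 ^ (γ - 1 / 2) * √(lam j) := by
      rw [h5]
      exact mul_le_mul_of_nonneg_right h6 (Real.sqrt_nonneg _)
    have h8 : m * (lam j ^ γ * T) ≤ m * ((l0 ^ (γ - 1 / 2) * √(lam j)) * T) := by gcongr
    nlinarith
  have h9 : Real.exp (-(2 * (m * T * l0 ^ (γ - 1 / 2)) * √(lam j))) =
      Real.exp (-(m * T * l0 ^ (γ - 1 / 2) * √(lam j))) ^ 2 := by
    rw [← Real.exp_nat_mul]
    congr 1
    push_cast
    ring
  rw [h9]
  exact pow_le_pow_left₀ (Real.exp_pos _).le (h4.trans h3) 2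

end
end Pool.Agent.R853.Avg
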