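import Mathlib
import Pool.Agent.R853.Avg.Defs

set_option autoImplicit false
set_option linter.unusedSectionVars false

/-!
Multiplication operators on `L²(G)` and `H¹₀(G)`.
-/

namespace Pool.Agent.R853.Avg

open MeasureTheory Set Filter Topology
open scoped RealInnerProductSpace ENNReal

section ops
variable {X : Type*} [MeasurableSpace X] {μ : Measure X}
variable {F : Type*} [NormedAddCommGroup F] [NormedSpace ℝ F]

/-- multiplication by a bounded function -/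
noncomputable def bOp (ψ : X → ℝ) (hψ : MemLp ψ ∞ μ) : Lp F 2 μ →L[ℝ] Lp F 2 μ :=
  ((ContinuousLinearMap.lsmul ℝ ℝ : ℝ →L[ℝ] F →L[ℝ] F).holderL μ ∞ 2 2) (hψ.toLp ψ)

lemma bOp_coe (ψ : X → ℝ) (hψ : MemLp ψ ∞ μ) (v : Lp F 2 μ) :
    bOp ψ hψ v =ᵐ[μ] fun x => ψ x • v x := by
  have h1 := (ContinuousLinearMap.lsmul ℝ ℝ : ℝ →L[ℝ] F →L[ℝ] F).coeFn_holder (r := 2)
    (hψ.toLp ψ) v
  have h2 := hψ.coeFn_toLp
  unfold bOp
  rw [ContinuousLinearMap.holderL_apply_apply]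
  filter_upwards [h1, h2] with x h3 h4
  rw [h3, h4]
  rfl

/-- multiplication of a scalar function by a bounded vector field -/
noncomputable def gOp (Ψ : X → F) (hΨ : MemLp Ψ ∞ μ) : Lp ℝ 2 μ →L[ℝ] Lp F 2 μ :=
  ((ContinuousLinearMap.lsmul ℝ ℝ : ℝ →L[ℝ] F →L[ℝ] F).flip.holderL μ ∞ 2 2) (hΨ.toLp Ψ)

lemma gOp_coe (Ψ : X → F) (hΨ : MemLp Ψ ∞ μ) (v : Lp ℝ 2 μ) :
    gOp Ψ hΨ v =ᵐ[μ] fun x => v x • Ψ x := by
  have h1 := (ContinuousLinearMap.lsmul ℝ ℝ : ℝ →L[ℝ] F →L[ℝ] F).flip.coeFn_holder (r := 2)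
    (hΨ.toLp Ψ) v
  have h2 := hΨ.coeFn_toLp
  unfold gOp
  rw [ContinuousLinearMap.holderL_apply_apply]
  filter_upwards [h1, h2] with x h3 h4
  rw [h3, h4]
  rfl

end ops

section
variable {E : Type*} [NormedAddCommGroup E] [InnerProductSpace ℝ E] [FiniteDimensional ℝ E]
  [MeasurableSpace E] [BorelSpace E] {G : Set E}

lemma gradient_add' {f g : E → ℝ} (hf : Differentiable ℝ f) (hg : Differentiable ℝ g) (x : E) :
    gradient (f + g) x = gradient f x + gradient g x := by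
  unfold gradient
  rw [fderiv_add (hf x) (hg x), map_add]

lemma gradient_smul' {f : E → ℝ} (c : ℝ) (hf : Differentiable ℝ f) (x : E) :
    gradient (c • f) x = c • gradient f x := by
  unfold gradient
  rw [fderiv_const_smul (hf x)]
  simp

lemma gradient_mul' {f g : E → ℝ} (hf : Differentiable ℝ f) (hg : Differentiable ℝ g) (x : E) :
    gradient (f * g) x = f x • gradient g x + g x • gradient f x := by
  unfold gradient
  rw [fderiv_mul (hf x) (hg x)]
  simp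

lemma IsTest.diff {φ : E → ℝ} (h : IsTest G φ) : Differentiable ℝ φ :=
  h.1.differentiable (by norm_num)

lemma IsTest.add {φ ψ : E → ℝ} (h : IsTest G φ) (h' : IsTest G ψ) : IsTest G (φ + ψ) := by
  refine ⟨h.1.add h'.1, h.2.1.add h'.2.1, ?_⟩
  exact (tsupport_add φ ψ).trans (union_subset h.2.2 h'.2.2)

lemma IsTest.smul {φ : E → ℝ} (h : IsTest G φ) (c : ℝ) : IsTest G (c • φ) := by
  refine ⟨h.1.const_smul c, h.2.1.smul_left (f := fun _ => c), ?_⟩
  exact (closure_mono (Function.support_const_smul_subset c φ)).trans h.2.2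

lemma IsTest.mul {φ ψ : E → ℝ} (h : IsTest G φ) (h' : ContDiff ℝ (⊤ : ℕ∞) ψ) : IsTest G (ψ * φ) := by
  refine ⟨h'.mul h.1, h.2.1.mul_left, ?_⟩
  exact (tsupport_mul_subset_right).trans h.2.2

end
end Pool.Agent.R853.Avg
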