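import Mathlib
import Pool.Agent.R853.Avg.Pde1

set_option autoImplicit false
set_option linter.unusedSectionVars false

/-!
Integration by parts, and closures.
-/

namespace Pool.Agent.R853.Avg

open MeasureTheory Set Filter Topology
open scoped RealInnerProductSpace ENNReal

section
variable {E : Type*} [NormedAddCommGroup E] [InnerProductSpace ℝ E] [FiniteDimensional ℝ E]
  [MeasurableSpace E] [BorelSpace E] {G : Set E}

/-- partial derivative -/
noncomputable def pd (i : Fin (Module.finrank ℝ E)) (φ : E → ℝ) (x : E) : ℝ :=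
  fderiv ℝ φ x (stdOrthonormalBasis ℝ E i)

/-- minus the Laplacian -/
noncomputable def nlap (φ : E → ℝ) (x : E) : ℝ := -∑ i, pd i (pd i φ) x

lemma pd_smooth {φ : E → ℝ} (h : ContDiff ℝ (⊤ : ℕ∞) φ) (i : Fin (Module.finrank ℝ E)) :
    ContDiff ℝ (⊤ : ℕ∞) (pd i φ) := by
  unfold pd
  exact (h.fderiv_right (m := (⊤ : ℕ∞)) le_rfl).clm_apply contDiff_const

lemma pd_tsupport (φ : E → ℝ) (i : Fin (Module.finrank ℝ E)) : tsupport (pd i φ) ⊆ tsupport φ := by
  refine closure_minimal ?_ isClosed_closure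
  intro x hx
  by_contra hcon
  apply hx
  have h1 : φ =ᶠ[𝓝 x] 0 := notMem_tsupport_iff_eventuallyEq.1 hcon
  unfold pd
  rw [h1.fderiv_eq]
  simp

lemma pd_compact {φ : E → ℝ} (h : HasCompactSupport φ) (i : Fin (Module.finrank ℝ E)) : HasCompactSupport (pd i φ) :=
  h.mono' ((subset_tsupport _).trans (pd_tsupport φ i))

lemma nlap_smooth {φ : E → ℝ} (h : ContDiff ℝ (⊤ : ℕ∞) φ) : ContDiff ℝ (⊤ : ℕ∞) (nlap φ) := by
  unfold nlap
  exact (ContDiff.sum fun i _ => pd_smooth (pd_smooth h i) i).neg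

lemma nlap_tsupport (φ : E → ℝ) : tsupport (nlap φ) ⊆ tsupport φ := by
  refine closure_minimal ?_ isClosed_closure
  intro x hx
  by_contra hcon
  apply hx
  unfold nlap
  have h1 : ∀ i, pd i (pd i φ) x = 0 := by
    intro i
    have h2 : x ∉ tsupport (pd i (pd i φ)) := fun h =>
      hcon (pd_tsupport φ i (pd_tsupport (pd i φ) i h))
    exact image_eq_zero_of_notMem_tsupport h2
  simp [h1]

lemma nlap_test {S : Set E} {φ : E → ℝ} (h : IsTest S φ) : IsTest S (nlap φ) :=
  ⟨nlap_smooth h.1, h.2.1.mono' ((subset_tsupport _).trans (nlap_tsupport φ)),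
    (nlap_tsupport φ).trans h.2.2⟩

lemma grad_inner_basis (φ : E → ℝ) (x : E) (i : Fin (Module.finrank ℝ E)) :
    ⟪gradient φ x, stdOrthonormalBasis ℝ E i⟫ = pd i φ x := by
  unfold gradient pd
  rw [InnerProductSpace.toDual_symm_apply]

lemma inner_grad (φ ψ : E → ℝ) (x : E) :
    ⟪gradient φ x, gradient ψ x⟫ = ∑ i, pd i φ x * pd i ψ x := by
  rw [← (stdOrthonormalBasis ℝ E).sum_inner_mul_inner]
  refine Finset.sum_congr rfl fun i _ => ?_
  rw [grad_inner_basis, real_inner_comm, grad_inner_basis]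

lemma ibp {u φ : E → ℝ} (hu : ContDiff ℝ (⊤ : ℕ∞) u) (hu' : HasCompactSupport u)
    (hφ : ContDiff ℝ (⊤ : ℕ∞) φ) :
    ∫ x, ⟪gradient u x, gradient φ x⟫ = ∫ x, u x * nlap φ x := by
  simp_rw [inner_grad]
  have hi1 : ∀ i : Fin (Module.finrank ℝ E), Integrable (fun x => pd i u x * pd i φ x) := fun i =>
    Continuous.integrable_of_hasCompactSupport
      (((pd_smooth hu i).continuous).mul ((pd_smooth hφ i).continuous)) ((pd_compact hu' i).mul_right)
  have hi2 : ∀ i : Fin (Module.finrank ℝ E), Integrable (fun x => u x * pd i (pd i φ) x) := fun i =>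
    Continuous.integrable_of_hasCompactSupport
      (hu.continuous.mul ((pd_smooth (pd_smooth hφ i) i).continuous)) (hu'.mul_right)
  have hi3 : ∀ i : Fin (Module.finrank ℝ E), Integrable (fun x => u x * pd i φ x) := fun i =>
    Continuous.integrable_of_hasCompactSupport
      (hu.continuous.mul ((pd_smooth hφ i).continuous)) (hu'.mul_right)
  rw [integral_finsetSum _ (fun i _ => hi1 i)]
  have h1 : ∀ x, u x * nlap φ x = ∑ i, -(u x * pd i (pd i φ) x) := by
    intro x
    unfold nlap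
    rw [Finset.sum_neg_distrib, mul_neg, Finset.mul_sum]
  simp_rw [h1]
  have hi2' : ∀ i : Fin (Module.finrank ℝ E), Integrable (fun x => -(u x * pd i (pd i φ) x)) := fun i => (hi2 i).neg
  rw [integral_finsetSum _ (fun i _ => hi2' i)]
  refine Finset.sum_congr rfl fun i _ => ?_
  have h2 := integral_mul_fderiv_eq_neg_fderiv_mul_of_integrable (μ := (volume : Measure E))
    (f := u) (g := pd i φ) (v := stdOrthonormalBasis ℝ E i)
    (hi1 i) (hi2 i) (hi3 i) (fun x _ => (hu.differentiable (by norm_num)).differentiableAt)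
    (fun x _ => ((pd_smooth hφ i).differentiable (by norm_num)).differentiableAt)
  rw [integral_neg]
  have h3 : ∫ x, u x * pd i (pd i φ) x = -∫ x, pd i u x * pd i φ x := h2
  rw [h3, neg_neg]

lemma grad_cont {φ : E → ℝ} (h : ContDiff ℝ (⊤ : ℕ∞) φ) : Continuous (gradient φ) := by
  unfold gradient
  exact ((InnerProductSpace.toDual ℝ E).symm.continuous).comp (h.continuous_fderiv (by norm_num))

lemma grad_tsupport (φ : E → ℝ) : tsupport (gradient φ) ⊆ tsupport φ := by
  refine closure_minimal ?_ isClosed_closure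
  intro x hx
  by_contra hcon
  apply hx
  have h1 : φ =ᶠ[𝓝 x] 0 := notMem_tsupport_iff_eventuallyEq.1 hcon
  unfold gradient
  rw [h1.fderiv_eq]
  simp

lemma grad_compact {φ : E → ℝ} (h : HasCompactSupport φ) : HasCompactSupport (gradient φ) :=
  h.mono' ((subset_tsupport _).trans (grad_tsupport φ))

lemma test_memLp {φ : E → ℝ} (h : IsTest G φ) : MemLp φ 2 (volume.restrict G) :=
  h.1.continuous.memLp_of_hasCompactSupport h.2.1

lemma grad_memLp {φ : E → ℝ} (h : IsTest G φ) : MemLp (gradient φ) 2 (volume.restrict G) :=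
  (grad_cont h.1).memLp_of_hasCompactSupport (grad_compact h.2.1)

/-- the submodule of smooth pairs -/
def SPm (G : Set E) : Submodule ℝ (Lp ℝ 2 (volume.restrict G) ×
      Lp E 2 (volume.restrict G)) where
  carrier := SP G
  zero_mem' := by
    refine ⟨0, ⟨contDiff_zero_fun, HasCompactSupport.zero, by simp [tsupport]⟩, ?_, ?_⟩
    · exact Lp.coeFn_zero _ _ _
    · have h : gradient (0 : E → ℝ) = 0 := by
        funext x
        unfold gradient
        simp
      rw [h]
      exact Lp.coeFn_zero _ _ _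
  add_mem' := by
    rintro ⟨u, g⟩ ⟨u', g'⟩ ⟨φ, hφ, h1, h2⟩ ⟨φ', hφ', h1', h2'⟩
    refine ⟨φ + φ', hφ.add hφ', ?_, ?_⟩
    · filter_upwards [h1, h1', Lp.coeFn_add u u'] with x e1 e2 e3
      simp only [Prod.fst_add]
      rw [e3]
      simp only [Pi.add_apply]
      rw [e1, e2]
    · filter_upwards [h2, h2', Lp.coeFn_add g g'] with x e1 e2 e3
      simp only [Prod.snd_add]
      rw [e3, gradient_add' hφ.diff hφ'.diff]
      simp only [Pi.add_apply]
      rw [e1, e2]
  smul_mem' := by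
    rintro c ⟨u, g⟩ ⟨φ, hφ, h1, h2⟩
    refine ⟨c • φ, hφ.smul c, ?_, ?_⟩
    · filter_upwards [h1, Lp.coeFn_smul c u] with x e1 e3
      simp only [Prod.smul_fst]
      rw [e3]
      simp only [Pi.smul_apply]
      rw [e1]
    · filter_upwards [h2, Lp.coeFn_smul c g] with x e1 e3
      simp only [Prod.smul_snd]
      rw [e3, gradient_smul' c hφ.diff]
      simp only [Pi.smul_apply]
      rw [e1]

lemma isH10_iff (u : Lp ℝ 2 (volume.restrict G)) (g : Lp E 2 (volume.restrict G)) :
    IsH10 G u g ↔ (u, g) ∈ (SPm G).topologicalClosure := Iff.rfl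

/-- Green's formula. -/
lemma green {u : Lp ℝ 2 (volume.restrict G)} {g : Lp E 2 (volume.restrict G)} (h : IsH10 G u g)
    {φ : E → ℝ} (hφ : IsTest G φ) :
    ⟪g, (grad_memLp hφ).toLp (gradient φ)⟫ = ⟪u, (test_memLp (nlap_test hφ)).toLp (nlap φ)⟫ := by
  have hcl : IsClosed {p : Lp ℝ 2 (volume.restrict G) × Lp E 2 (volume.restrict G) |
      ⟪p.2, (grad_memLp hφ).toLp (gradient φ)⟫ =
        ⟪p.1, (test_memLp (nlap_test hφ)).toLp (nlap φ)⟫} :=
    isClosed_eq (by fun_prop) (by fun_prop)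
  refine closure_minimal ?_ hcl h
  rintro ⟨v, w⟩ ⟨ψ, hψ, h1, h2⟩
  simp only at h1 h2
  simp only [mem_ofPred_eq]
  rw [L2.inner_def, L2.inner_def]
  have e1 : ∫ x in G, ⟪w x, ((grad_memLp hφ).toLp (gradient φ)) x⟫ =
      ∫ x in G, ⟪gradient ψ x, gradient φ x⟫ := by
    refine integral_congr_ae ?_
    filter_upwards [h2, (grad_memLp hφ).coeFn_toLp] with x a b
    rw [a, b]
  have e2 : ∫ x in G, ⟪v x, ((test_memLp (nlap_test hφ)).toLp (nlap φ)) x⟫ =
      ∫ x in G, ψ x * nlap φ x := by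
    refine integral_congr_ae ?_
    filter_upwards [h1, (test_memLp (nlap_test hφ)).coeFn_toLp] with x a b
    rw [a, b]
    simp [mul_comm]
  rw [e1, e2]
  rw [setIntegral_eq_integral_of_forall_compl_eq_zero, setIntegral_eq_integral_of_forall_compl_eq_zero]
  · exact ibp hψ.1 hψ.2.1 hφ.1
  · intro x hx
    rw [image_eq_zero_of_notMem_tsupport (fun h => hx (hψ.2.2 h)), zero_mul]
  · intro x hx
    have : gradient ψ x = 0 :=
      image_eq_zero_of_notMem_tsupport (fun h => hx (hψ.2.2 (grad_tsupport ψ h)))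
    rw [this, inner_zero_left]

end
end Pool.Agent.R853.Avg
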