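import Mathlib
import Pool.Agent.R853.Avg.Pde2
import Pool.Agent.R853.Avg.Abs

set_option autoImplicit false
set_option linter.unusedSectionVars false

/-!
Weighted estimates (Agmon, Combes-Thomas).
-/

namespace Pool.Agent.R853.Avg

open MeasureTheory Set Filter Topology
open scoped RealInnerProductSpace ENNReal

section
variable {E : Type*} [NormedAddCommGroup E] [InnerProductSpace ℝ E] [FiniteDimensional ℝ E]
  [MeasurableSpace E] [BorelSpace E] {G : Set E}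

lemma mul_H10 {ψ : E → ℝ} (hs : ContDiff ℝ (⊤ : ℕ∞) ψ) (hb : MemLp ψ ∞ (volume.restrict G))
    (hg : MemLp (gradient ψ) ∞ (volume.restrict G)) {u : Lp ℝ 2 (volume.restrict G)}
    {g : Lp E 2 (volume.restrict G)} (h : IsH10 G u g) :
    IsH10 G (bOp ψ hb u) (bOp ψ hb g + gOp (gradient ψ) hg u) := by
  let T : Lp ℝ 2 (volume.restrict G) × Lp E 2 (volume.restrict G) →
      Lp ℝ 2 (volume.restrict G) × Lp E 2 (volume.restrict G) := fun p =>
    (bOp ψ hb p.1, bOp ψ hb p.2 + gOp (gradient ψ) hg p.1)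
  have hT : Continuous T := by
    refine Continuous.prodMk ?_ ?_
    · exact (bOp ψ hb).continuous.comp continuous_fst
    · exact ((bOp ψ hb).continuous.comp continuous_snd).add
        ((gOp (gradient ψ) hg).continuous.comp continuous_fst)
  refine map_mem_closure (f := T) hT h ?_
  rintro ⟨v, w⟩ ⟨φ, hφ, h1, h2⟩
  simp only at h1 h2
  refine ⟨ψ * φ, hφ.mul hs, ?_, ?_⟩
  · filter_upwards [h1, bOp_coe ψ hb v] with x e1 e2
    change (bOp ψ hb v) x = _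
    rw [e2, e1]
    rfl
  · filter_upwards [h1, h2, bOp_coe ψ hb w, gOp_coe (gradient ψ) hg v,
      Lp.coeFn_add (bOp ψ hb w) (gOp (gradient ψ) hg v)] with x e1 e2 e3 e4 e5
    change (bOp ψ hb w + gOp (gradient ψ) hg v) x = _
    rw [e5, Pi.add_apply, e3, e4, e1, e2, gradient_mul' (hs.differentiable (by norm_num)) hφ.diff]

lemma weak_ext {u : Lp ℝ 2 (volume.restrict G)} {g : Lp E 2 (volume.restrict G)} {l : ℝ}
    (hw : ∀ φ, IsTest G φ → ∫ x in G, ⟪(g x : E), gradient φ x⟫ = l * ∫ x in G, u x * φ x)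
    {v : Lp ℝ 2 (volume.restrict G)} {w : Lp E 2 (volume.restrict G)} (h : IsH10 G v w) :
    ⟪g, w⟫ = l * ⟪u, v⟫ := by
  have hcl : IsClosed {p : Lp ℝ 2 (volume.restrict G) × Lp E 2 (volume.restrict G) |
      ⟪g, p.2⟫ = l * ⟪u, p.1⟫} := isClosed_eq (by fun_prop) (by fun_prop)
  refine closure_minimal ?_ hcl h
  rintro ⟨v, w⟩ ⟨φ, hφ, h1, h2⟩
  simp only at h1 h2
  simp only [mem_ofPred_eq]
  rw [L2.inner_def, L2.inner_def]
  have e1 : ∫ x in G, ⟪g x, w x⟫ = ∫ x in G, ⟪(g x : E), gradient φ x⟫ := by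
    refine integral_congr_ae ?_
    filter_upwards [h2] with x a
    rw [a]
  have e2 : ∫ x in G, ⟪u x, v x⟫ = ∫ x in G, u x * φ x := by
    refine integral_congr_ae ?_
    filter_upwards [h1] with x a
    rw [a]
    simp [mul_comm]
  rw [e1, e2, hw φ hφ]

/-- Weights. -/
structure Wt (G : Set E) (φ : E → ℝ) (s : ℝ) : Prop where
  sm : ContDiff ℝ (⊤ : ℕ∞) φ
  bd : ∃ B, ∀ x, |φ x| ≤ B
  gr : ∀ x, ‖gradient φ x‖ ≤ s * |φ x|
  hs : 0 ≤ s

lemma Wt.mem {φ : E → ℝ} {s : ℝ} (h : Wt G φ s) : MemLp φ ∞ (volume.restrict G) := by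
  obtain ⟨B, hB⟩ := h.bd
  exact memLp_top_of_bound h.sm.continuous.aestronglyMeasurable B (Eventually.of_forall hB)

lemma Wt.mem_sq {φ : E → ℝ} {s : ℝ} (h : Wt G φ s) : MemLp (φ * φ) ∞ (volume.restrict G) := by
  obtain ⟨B, hB⟩ := h.bd
  refine memLp_top_of_bound (h.sm.continuous.mul h.sm.continuous).aestronglyMeasurable (B * B)
    (Eventually.of_forall fun x => ?_)
  rw [Pi.mul_apply, norm_mul]
  exact mul_le_mul (hB x) (hB x) (norm_nonneg _) ((abs_nonneg _).trans (hB x))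

lemma Wt.mem_gr {φ : E → ℝ} {s : ℝ} (h : Wt G φ s) :
    MemLp (gradient (φ * φ)) ∞ (volume.restrict G) := by
  obtain ⟨B, hB⟩ := h.bd
  have hB0 : 0 ≤ B := (abs_nonneg _).trans (hB 0)
  refine memLp_top_of_bound (grad_cont (h.sm.mul h.sm)).aestronglyMeasurable (2 * (B * (s * B)))
    (Eventually.of_forall fun x => ?_)
  have hd := h.sm.differentiable (by norm_num : ((⊤ : ℕ∞) : WithTop ℕ∞) ≠ 0)
  rw [gradient_mul' hd hd, ← two_smul ℝ, norm_smul, norm_smul]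
  have h1 := h.gr x
  have h2 : ‖gradient φ x‖ ≤ s * B := h1.trans (mul_le_mul_of_nonneg_left (hB x) h.hs)
  simp only [Real.norm_eq_abs]
  rw [abs_of_nonneg (by norm_num : (0:ℝ) ≤ 2)]
  have h3 := mul_le_mul (hB x) h2 (norm_nonneg _) hB0
  linarith

lemma sq_inner {φ : E → ℝ} {s : ℝ} (h : Wt G φ s) (a b : Lp ℝ 2 (volume.restrict G)) :
    ⟪a, bOp (φ * φ) h.mem_sq b⟫ = ⟪bOp φ h.mem a, bOp φ h.mem b⟫ := by
  rw [L2.inner_def, L2.inner_def]
  refine integral_congr_ae ?_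
  filter_upwards [bOp_coe (φ * φ) h.mem_sq b, bOp_coe φ h.mem a, bOp_coe φ h.mem b] with x e1 e2 e3
  rw [e1, e2, e3]
  simp
  ring

lemma cacc_form {φ : E → ℝ} {s : ℝ} (h : Wt G φ s) (u : Lp ℝ 2 (volume.restrict G))
    (g : Lp E 2 (volume.restrict G)) :
    0 ≤ ⟪g, bOp (φ * φ) h.mem_sq g + gOp (gradient (φ * φ)) h.mem_gr u⟫ +
      s ^ 2 * ⟪bOp φ h.mem u, bOp φ h.mem u⟫ := by
  rw [L2.inner_def, L2.inner_def, ← integral_const_mul, ← integral_add (L2.integrable_inner _ _)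
    ((L2.integrable_inner _ _).const_mul _)]
  apply integral_nonneg_of_ae
  filter_upwards [bOp_coe (φ * φ) h.mem_sq g, gOp_coe (gradient (φ * φ)) h.mem_gr u,
    bOp_coe φ h.mem u, Lp.coeFn_add (bOp (φ * φ) h.mem_sq g) (gOp (gradient (φ * φ)) h.mem_gr u)]
    with x e1 e2 e3 e4
  have hd := h.sm.differentiable (by norm_num : ((⊤ : ℕ∞) : WithTop ℕ∞) ≠ 0)
  rw [e4, Pi.add_apply, e1, e2, e3, gradient_mul' hd hd]
  have h1 := h.gr x
  have h2 : ‖gradient φ x‖ ^ 2 ≤ s ^ 2 * (φ x) ^ 2 := by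
    calc ‖gradient φ x‖ ^ 2 ≤ (s * |φ x|) ^ 2 := pow_le_pow_left₀ (norm_nonneg _) h1 2
      _ = _ := by rw [mul_pow, sq_abs]
  have h3 : 0 ≤ ‖φ x • (g x : E) + u x • gradient φ x‖ ^ 2 := sq_nonneg _
  rw [norm_add_sq_real, norm_smul, norm_smul, inner_smul_left, inner_smul_right] at h3
  simp only [Pi.mul_apply, Pi.zero_apply]
  rw [inner_add_right, inner_smul_right, inner_smul_right, inner_add_right, inner_smul_right,
    real_inner_self_eq_norm_sq]
  simp only [Real.norm_eq_abs, mul_pow, sq_abs, RCLike.conj_to_real] at h3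
  have h4 : ⟪φ x • (u x : ℝ), φ x • (u x : ℝ)⟫ = φ x ^ 2 * (u x) ^ 2 := by
    rw [real_inner_self_eq_norm_sq, norm_smul, mul_pow, Real.norm_eq_abs, Real.norm_eq_abs,
      sq_abs, sq_abs]
  rw [h4]
  have h5 : (u x) ^ 2 * ‖gradient φ x‖ ^ 2 ≤ (u x) ^ 2 * (s ^ 2 * (φ x) ^ 2) :=
    mul_le_mul_of_nonneg_left h2 (sq_nonneg _)
  nlinarith

variable {e : HilbertBasis ℕ ℝ (Lp ℝ 2 (volume.restrict G))} {lam : ℕ → ℝ}

lemma basis_pos (hB : IsDirichletBasis G e lam) (j : ℕ) : lam 0 ≤ lam j := hB.2.1 (Nat.zero_le j)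

/-- weighted resolvent estimate, for finite sums -/
lemma ct_fin (hB : IsDirichletBasis G e lam) {φ : E → ℝ} {s : ℝ} (h : Wt G φ s) (q : ℝ)
    (hq : s ^ 2 ≤ q ^ 2) (F : Finset ℕ) (c : ℕ → ℝ) :
    (q ^ 2 - s ^ 2) * ‖bOp φ h.mem (rs e lam q (∑ j ∈ F, c j • e j))‖ ≤
      ‖bOp φ h.mem (∑ j ∈ F, c j • e j)‖ := by
  have hl0 := hB.1
  have hlam := basis_pos hB
  choose g hg hw using hB.2.2
  set z := ∑ j ∈ F, c j • e j with hz
  set v : Lp ℝ 2 (volume.restrict G) := ∑ j ∈ F, (c j * (lam j + q ^ 2)⁻¹) • e j with hv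
  set gv : Lp E 2 (volume.restrict G) := ∑ j ∈ F, (c j * (lam j + q ^ 2)⁻¹) • g j with hgv
  have hrs : rs e lam q z = v := by
    apply hb_ext e
    intro i
    rw [rs_coef e hl0 hlam, hz, hv, inner_sum, inner_sum, Finset.mul_sum]
    refine Finset.sum_congr rfl fun j _ => ?_
    rw [inner_smul_right, inner_smul_right]
    by_cases hij : i = j
    · subst hij; ring
    · rw [e.orthonormal.2 hij]; ring
  have hH : IsH10 G v gv := by
    rw [isH10_iff]
    have h1 : ((v, gv) : Lp ℝ 2 (volume.restrict G) × Lp E 2 (volume.restrict G)) =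
        ∑ j ∈ F, (c j * (lam j + q ^ 2)⁻¹) • (e j, g j) := by
      rw [hv, hgv]
      apply Prod.ext
      · rw [Prod.fst_sum]
        simp only [Prod.smul_fst]
      · rw [Prod.snd_sum]
        simp only [Prod.smul_snd]
    rw [h1]
    refine Submodule.sum_mem _ fun j _ => Submodule.smul_mem _ _ ?_
    exact (isH10_iff _ _).1 (hg j)
  have hweak : ∀ {v' : Lp ℝ 2 (volume.restrict G)} {w' : Lp E 2 (volume.restrict G)},
      IsH10 G v' w' → ⟪gv, w'⟫ = ⟪z - q ^ 2 • v, v'⟫ := by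
    intro v' w' hv'
    rw [hgv, sum_inner, inner_sub_left, inner_smul_left, hz, hv, sum_inner, sum_inner,
      Finset.mul_sum, ← Finset.sum_sub_distrib]
    refine Finset.sum_congr rfl fun j _ => ?_
    rw [inner_smul_left, inner_smul_left, inner_smul_left, weak_ext (hw j) hv']
    have h3 : 0 < lam j + q ^ 2 := add_pos_of_pos_of_nonneg (hl0.trans_le (hlam j)) (sq_nonneg _)
    simp only [RCLike.conj_to_real]
    field_simp
    ring
  have h1 := hweak (mul_H10 (h.sm.mul h.sm) h.mem_sq h.mem_gr hH)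
  have h2 := cacc_form h v gv
  rw [hrs]
  have h3 : ⟪gv, bOp (φ * φ) h.mem_sq gv + gOp (gradient (φ * φ)) h.mem_gr v⟫ =
      ⟪bOp φ h.mem z, bOp φ h.mem v⟫ - q ^ 2 * ⟪bOp φ h.mem v, bOp φ h.mem v⟫ := by
    have h1' : ⟪gv, bOp (φ * φ) h.mem_sq gv + gOp (gradient (φ * φ)) h.mem_gr v⟫ =
      ⟪z - q ^ 2 • v, bOp (φ * φ) h.mem_sq v⟫ := h1
    rw [h1', inner_sub_left, inner_smul_left, sq_inner h, sq_inner h]
    simp
  rw [h3, real_inner_self_eq_norm_sq] at h2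
  have h4 := real_inner_le_norm (bOp φ h.mem z) (bOp φ h.mem v)
  rcases (norm_nonneg (bOp φ h.mem v)).eq_or_lt with h5 | h5
  · rw [← h5, mul_zero]; exact norm_nonneg _
  · have h6 : (q ^ 2 - s ^ 2) * ‖bOp φ h.mem v‖ * ‖bOp φ h.mem v‖ ≤
        ‖bOp φ h.mem z‖ * ‖bOp φ h.mem v‖ := by nlinarith
    exact le_of_mul_le_mul_right h6 h5

lemma ct (hB : IsDirichletBasis G e lam) {φ : E → ℝ} {s : ℝ} (h : Wt G φ s) (q : ℝ)
    (hq : s ^ 2 ≤ q ^ 2) (z : Lp ℝ 2 (volume.restrict G)) :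
    (q ^ 2 - s ^ 2) * ‖bOp φ h.mem (rs e lam q z)‖ ≤ ‖bOp φ h.mem z‖ := by
  have hl0 := hB.1
  have hlam := basis_pos hB
  have h1 := e.hasSum_repr z
  have h1' : (fun i => e.repr z i • e i) = fun i => ⟪e i, z⟫ • e i :=
    funext fun i => by rw [e.repr_apply_apply]
  rw [h1'] at h1
  have h2 : Tendsto (fun F' : Finset ℕ => ∑ j ∈ F', ⟪e j, z⟫ • e j) atTop (𝓝 z) := h1
  have h3 : Tendsto (fun F' : Finset ℕ => rs e lam q (∑ j ∈ F', ⟪e j, z⟫ • e j)) atTop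
      (𝓝 (rs e lam q z)) := by
    rw [tendsto_iff_norm_sub_tendsto_zero] at h2 ⊢
    have h4 := h2.const_mul ((lam 0)⁻¹)
    rw [mul_zero] at h4
    refine squeeze_zero (fun F' => norm_nonneg _) (fun F' => ?_) h4
    have h5 : rs e lam q (∑ j ∈ F', ⟪e j, z⟫ • e j) - rs e lam q z =
        rs e lam q ((∑ j ∈ F', ⟪e j, z⟫ • e j) - z) := by
      apply hb_ext e
      intro i
      rw [inner_sub_right, rs_coef e hl0 hlam, rs_coef e hl0 hlam, rs_coef e hl0 hlam,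
        inner_sub_right]
      ring
    rw [h5]
    exact rs_norm e hl0 hlam q _
  have h6 := ((bOp φ h.mem : Lp ℝ 2 (volume.restrict G) →L[ℝ] _).continuous.tendsto _).comp h3
  have h7 := ((bOp φ h.mem : Lp ℝ 2 (volume.restrict G) →L[ℝ] _).continuous.tendsto _).comp h2
  exact le_of_tendsto_of_tendsto' (h6.norm.const_mul _) h7.norm (fun F' => ct_fin hB h q hq F' _)

end
end Pool.Agent.R853.Avg
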