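import Mathlib
import Pool.Agent.R853.Avg.Pde3
import Pool.Agent.R853.Avg.Fin

set_option autoImplicit false
set_option linter.unusedSectionVars false

/-!
The local data for the Dirichlet Laplacian.
-/

namespace Pool.Agent.R853.Avg

open MeasureTheory Set Filter Topology Metric
open scoped RealInnerProductSpace ENNReal

section
variable {E : Type*} [NormedAddCommGroup E] [InnerProductSpace ℝ E] [FiniteDimensional ℝ E]
  [MeasurableSpace E] [BorelSpace E] {G : Set E}

lemma IsTest.mono {S T : Set E} {φ : E → ℝ} (h : IsTest S φ) (hST : S ⊆ T) : IsTest T φ :=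
  ⟨h.1, h.2.1, h.2.2.trans hST⟩

/-- classes of test functions supported in `S` -/
def DD (G S : Set E) : Submodule ℝ (Lp ℝ 2 (volume.restrict G)) where
  carrier := {v | ∃ φ, IsTest S φ ∧ v =ᵐ[volume.restrict G] φ}
  zero_mem' := ⟨0, ⟨contDiff_zero_fun, HasCompactSupport.zero, by simp [tsupport]⟩,
    Lp.coeFn_zero _ _ _⟩
  add_mem' := by
    rintro u u' ⟨φ, hφ, h1⟩ ⟨φ', hφ', h1'⟩
    refine ⟨φ + φ', hφ.add hφ', ?_⟩
    filter_upwards [h1, h1', Lp.coeFn_add u u'] with x e1 e2 e3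
    rw [e3]
    simp only [Pi.add_apply]
    rw [e1, e2]
  smul_mem' := by
    rintro c u ⟨φ, hφ, h1⟩
    refine ⟨c • φ, hφ.smul c, ?_⟩
    filter_upwards [h1, Lp.coeFn_smul c u] with x e1 e3
    rw [e3]
    simp only [Pi.smul_apply]
    rw [e1]

lemma ind_mem {G0 : Set E} (h : IsOpen G0) :
    MemLp (G0.indicator (fun _ => (1:ℝ))) ∞ (volume.restrict G) := by
  refine memLp_top_of_bound ?_ 1 (Eventually.of_forall fun x => ?_)
  · exact (measurable_const.indicator h.measurableSet).aestronglyMeasurable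
  · by_cases hx : x ∈ G0 <;> simp [hx]

/-- restriction to `G0` -/
noncomputable def PrG (G : Set E) {G0 : Set E} (h : IsOpen G0) :
    Lp ℝ 2 (volume.restrict G) →L[ℝ] Lp ℝ 2 (volume.restrict G) :=
  bOp (G0.indicator (fun _ => (1:ℝ))) (ind_mem h)

lemma PrG_coe {G0 : Set E} (h : IsOpen G0) (v : Lp ℝ 2 (volume.restrict G)) :
    PrG G h v =ᵐ[volume.restrict G] fun x => G0.indicator (fun _ => (1:ℝ)) x • v x :=
  bOp_coe _ _ v

variable {e : HilbertBasis ℕ ℝ (Lp ℝ 2 (volume.restrict G))} {lam : ℕ → ℝ}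

lemma wt_exp {f : E → ℝ} (hf : ContDiff ℝ (⊤ : ℕ∞) f) (h0 : ∀ x, 0 ≤ f x) (h1 : ∀ x, f x ≤ 1)
    {Cf : ℝ} (hC : ∀ x, ‖gradient f x‖ ≤ Cf) {k : ℝ} (hk : 0 ≤ k) (hkC : k * Cf ≤ 1) {s : ℝ}
    (hs : 0 ≤ s) : Wt G (fun x => Real.exp (s * (k * (1 - f x)))) s where
  sm := by fun_prop
  bd := ⟨Real.exp (s * k), fun x => by
    rw [abs_of_pos (Real.exp_pos _)]
    apply Real.exp_le_exp.2
    have := h0 x
    have h2 : k * (1 - f x) ≤ k := by nlinarith
    exact mul_le_mul_of_nonneg_left h2 hs⟩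
  gr := by
    intro x
    have hd : HasFDerivAt f (fderiv ℝ f x) x :=
      (hf.differentiable (by norm_num)).differentiableAt.hasFDerivAt
    have h2 := ((((hd.const_sub 1).const_mul k).const_mul s)).exp
    have h3 : gradient (fun x => Real.exp (s * (k * (1 - f x)))) x =
        (Real.exp (s * (k * (1 - f x))) * (-(s * k))) • gradient f x := by
      unfold gradient
      rw [h2.fderiv]
      simp [smul_smul]
    rw [h3, norm_smul, Real.norm_eq_abs, abs_mul, abs_neg, abs_of_pos (Real.exp_pos _),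
      abs_of_nonneg (by positivity : 0 ≤ s * k)]
    have h4 := hC x
    have h5 : k * ‖gradient f x‖ ≤ 1 := (mul_le_mul_of_nonneg_left h4 hk).trans hkC
    have h6 := Real.exp_pos (s * (k * (1 - f x)))
    calc Real.exp (s * (k * (1 - f x))) * (s * k) * ‖gradient f x‖
        = (s * Real.exp (s * (k * (1 - f x)))) * (k * ‖gradient f x‖) := by ring
      _ ≤ (s * Real.exp (s * (k * (1 - f x)))) * 1 := by gcongr
      _ = _ := mul_one _
  hs := hs

theorem exists_locData (hB : IsDirichletBasis G e lam) {G0 : Set E} (hG0 : IsOpen G0)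
    (hG0G : G0 ⊆ G) (hGo : IsOpen G) {x1 : E} {δ : ℝ} (hδ : 0 < δ)
    (hball : closedBall x1 (2 * δ) ⊆ G \ closure G0) :
    ∃ K' κ, LocData e lam (lam 0) (PrG G hG0) (L2sub G G0) (DD G (closedBall x1 δ)) K' κ := by
  have hl0 := hB.1
  have hlam := basis_pos hB
  choose g hg hw using hB.2.2
  let f : ContDiffBump x1 := ⟨δ, 2 * δ, hδ, by linarith⟩
  have hfs : ContDiff ℝ (⊤ : ℕ∞) (f : E → ℝ) := f.contDiff
  have hfc : HasCompactSupport (f : E → ℝ) := f.hasCompactSupport
  obtain ⟨Cf, hCf⟩ := (grad_compact hfc).exists_bound_of_continuous (grad_cont hfs)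
  have hCf0 : 0 ≤ Cf := (norm_nonneg _).trans (hCf 0)
  set k : ℝ := (1 + Cf)⁻¹ with hk
  have hk0 : 0 < k := by positivity
  have hkC : k * Cf ≤ 1 := by
    rw [hk, inv_mul_le_iff₀ (by positivity)]
    linarith
  have hdisj : ∀ x ∈ G0, x ∉ closedBall x1 (2 * δ) := fun x hx hb =>
    (hball hb).2 (subset_closure hx)
  have hsub : closedBall x1 δ ⊆ closedBall x1 (2 * δ) := closedBall_subset_closedBall (by linarith)
  have hSG : closedBall x1 δ ⊆ G := fun x hx => (hball (hsub hx)).1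
  refine ⟨4 / 3 + Real.exp (k / 2) * (lam 0)⁻¹, k / 2, ?_⟩
  refine ⟨hl0, hlam, ?_, ?_, ?_, by positivity, by positivity, ?_⟩
  · -- hK
    intro y hy w
    rw [L2.inner_def, L2.inner_def]
    refine integral_congr_ae ?_
    filter_upwards [hy, PrG_coe hG0 w] with x h1 h2
    rw [h2]
    by_cases hx : x ∈ G0
    · simp [hx]
    · rw [h1 hx]; simp
  · -- D1
    rintro z ⟨φ, hφ, hz⟩
    have hφG := hφ.mono hSG
    refine ⟨(test_memLp (nlap_test hφG)).toLp (nlap φ), ⟨nlap φ, nlap_test hφ,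
      (test_memLp (nlap_test hφG)).coeFn_toLp⟩, fun j => ?_⟩
    rw [← green (hg j) hφG]
    have h1 : IsH10 G z ((grad_memLp hφG).toLp (gradient φ)) :=
      subset_closure ⟨φ, hφG, hz, (grad_memLp hφG).coeFn_toLp⟩
    exact weak_ext (hw j) h1
  · -- D2
    rintro z ⟨φ, hφ, hz⟩
    apply Lp.ext
    filter_upwards [PrG_coe hG0 z, hz, Lp.coeFn_zero ℝ 2 (volume.restrict G)] with x h1 h2 h3
    rw [h1, h2, h3]
    by_cases hx : x ∈ G0
    · have : φ x = 0 := image_eq_zero_of_notMem_tsupport fun h =>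
        hdisj x hx (hsub (hφ.2.2 h))
      simp [this]
    · simp [hx]
  · -- D3
    rintro z ⟨φ, hφ, hz⟩ q
    have hPn : ∀ v, ‖PrG G hG0 v‖ ≤ ‖v‖ := by
      intro v
      apply Lp.norm_le_norm_of_ae_le
      filter_upwards [PrG_coe hG0 v] with x h1
      rw [h1]
      by_cases hx : x ∈ G0 <;> simp [hx]
    have hE0 : 0 ≤ Real.exp (-(k / 2 * |q|)) * ‖z‖ := by positivity
    have hE1 : 0 ≤ (4 / 3 : ℝ) * Real.exp (-(k / 2 * |q|)) * ‖z‖ := by positivity
    have hE2 : 0 ≤ Real.exp (k / 2) * (lam 0)⁻¹ * Real.exp (-(k / 2 * |q|)) * ‖z‖ := by positivity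
    rcases le_or_gt 1 |q| with hq | hq
    · set s := |q| / 2 with hs
      have hs0 : 0 ≤ s := by positivity
      have hW : Wt G (fun x => Real.exp (s * (k * (1 - f x)))) s :=
        wt_exp hfs (fun x => f.nonneg) (fun x => f.le_one) hCf hk0.le hkC hs0
      have hq2 : q ^ 2 = |q| ^ 2 := (sq_abs q).symm
      have h1 := ct hB hW q (by rw [hq2, hs]; nlinarith) z
      have h2 : bOp (fun x => Real.exp (s * (k * (1 - f x)))) hW.mem z = z := by
        apply Lp.ext
        filter_upwards [bOp_coe _ hW.mem z, hz] with x h3 h4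
        rw [h3, h4]
        by_cases hx : x ∈ closedBall x1 δ
        · have : f x = 1 := f.one_of_mem_closedBall hx
          simp [this]
        · have : φ x = 0 := image_eq_zero_of_notMem_tsupport fun h => hx (hφ.2.2 h)
          simp [this]
      rw [h2] at h1
      have h3 : Real.exp (s * k) * ‖PrG G hG0 (rs e lam q z)‖ ≤
          ‖bOp (fun x => Real.exp (s * (k * (1 - f x)))) hW.mem (rs e lam q z)‖ := by
        have h4 : Real.exp (s * k) * ‖PrG G hG0 (rs e lam q z)‖ =
            ‖Real.exp (s * k) • PrG G hG0 (rs e lam q z)‖ := by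
          rw [norm_smul, Real.norm_eq_abs, abs_of_pos (Real.exp_pos _)]
        rw [h4]
        apply Lp.norm_le_norm_of_ae_le
        filter_upwards [bOp_coe _ hW.mem (rs e lam q z), PrG_coe hG0 (rs e lam q z),
          Lp.coeFn_smul (Real.exp (s * k)) (PrG G hG0 (rs e lam q z))] with x h5 h6 h7
        rw [h7, Pi.smul_apply, h6, h5]
        by_cases hx : x ∈ G0
        · have : f x = 0 := by
            apply f.zero_of_le_dist
            have := hdisj x hx
            rw [mem_closedBall, not_le] at this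
            exact this.le
          simp [hx, this]
        · simp only [hx, not_false_eq_true, indicator_of_notMem, zero_smul, smul_zero, norm_zero]
          exact norm_nonneg _
      have h4 : q ^ 2 - s ^ 2 = 3 / 4 * |q| ^ 2 := by rw [hq2, hs]; ring
      rw [h4] at h1
      have h5 : (3 / 4 : ℝ) ≤ 3 / 4 * |q| ^ 2 := by nlinarith
      have h6 : Real.exp (s * k) * ‖PrG G hG0 (rs e lam q z)‖ ≤ 4 / 3 * ‖z‖ := by
        have h7 := norm_nonneg (bOp (fun x => Real.exp (s * (k * (1 - f x)))) hW.mem (rs e lam q z))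
        nlinarith
      have h8 : ‖PrG G hG0 (rs e lam q z)‖ ≤ 4 / 3 * Real.exp (-(k / 2 * |q|)) * ‖z‖ := by
        have h9 : Real.exp (-(k / 2 * |q|)) = (Real.exp (s * k))⁻¹ := by
          rw [← Real.exp_neg]
          congr 1
          rw [hs]
          ring
        rw [h9]
        have h10 := Real.exp_pos (s * k)
        rw [mul_assoc, mul_comm _ ‖z‖, ← mul_assoc, ← div_eq_mul_inv, le_div_iff₀ h10, mul_comm]
        exact h6
      calc _ ≤ _ := h8
        _ ≤ 4 / 3 * Real.exp (-(k / 2 * |q|)) * ‖z‖ +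
          Real.exp (k / 2) * (lam 0)⁻¹ * Real.exp (-(k / 2 * |q|)) * ‖z‖ := by linarith
        _ = _ := by ring
    · have h1 : ‖PrG G hG0 (rs e lam q z)‖ ≤ (lam 0)⁻¹ * ‖z‖ :=
        (hPn _).trans (rs_norm e hl0 hlam q z)
      have h2 : 1 ≤ Real.exp (k / 2) * Real.exp (-(k / 2 * |q|)) := by
        rw [← Real.exp_add]
        apply Real.one_le_exp
        nlinarith
      have h3 : 0 ≤ (lam 0)⁻¹ * ‖z‖ := by positivity
      calc _ ≤ _ := h1
        _ ≤ (Real.exp (k / 2) * Real.exp (-(k / 2 * |q|))) * ((lam 0)⁻¹ * ‖z‖) := by nlinarith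
        _ ≤ 4 / 3 * Real.exp (-(k / 2 * |q|)) * ‖z‖ +
          Real.exp (k / 2) * (lam 0)⁻¹ * Real.exp (-(k / 2 * |q|)) * ‖z‖ := by
            nlinarith
        _ = _ := by ring

lemma DD_nonzero {x1 : E} {δ : ℝ} (hδ : 0 < δ) (h : closedBall x1 δ ⊆ G) :
    ∃ z ∈ DD G (closedBall x1 δ), z ≠ 0 := by
  let f : ContDiffBump x1 := ⟨δ / 2, δ, by positivity, by linarith⟩
  have hf : IsTest (closedBall x1 δ) (f : E → ℝ) :=
    ⟨f.contDiff, f.hasCompactSupport, by rw [f.tsupport_eq]⟩
  have hfG := hf.mono h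
  refine ⟨(test_memLp hfG).toLp (f : E → ℝ), ⟨f, hf, (test_memLp hfG).coeFn_toLp⟩, ?_⟩
  intro h0
  have h1 := (test_memLp hfG).coeFn_toLp
  rw [h0] at h1
  have h2 : ∀ᵐ x ∂(volume.restrict G), (f : E → ℝ) x = 0 := by
    filter_upwards [h1, Lp.coeFn_zero ℝ 2 (volume.restrict G)] with x h3 h4
    rw [← h3, h4]
    rfl
  have h3 : (volume.restrict G) (ball x1 (δ / 2)) = 0 := by
    refine measure_mono_null ?_ h2
    intro x hx h4
    have h5 : f x = 1 := f.one_of_mem_closedBall (ball_subset_closedBall hx)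
    change (f : E → ℝ) x = 0 at h4
    rw [h5] at h4
    norm_num at h4
  rw [Measure.restrict_apply measurableSet_ball, inter_eq_left.2
    ((ball_subset_closedBall.trans (closedBall_subset_closedBall (by linarith))).trans h)] at h3
  exact (measure_ball_pos volume x1 (by positivity : 0 < δ / 2)).ne' h3

theorem main (hGo : IsOpen G) {G0 : Set E} (hG0 : IsOpen G0) (hG0G : G0 ⊆ G)
    (hint : (interior (G \ closure G0)).Nonempty) (hB : IsDirichletBasis G e lam)
    {Ω : Type*} [MeasurableSpace Ω] {P : Measure Ω} [IsProbabilityMeasure P] {α : Ω → ℝ}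
    (hα : Measurable α) (hα0 : ∀ ω, 0 ≤ α ω) (hi : Integrable (fun ω => α ω ^ 2) P)
    {γ T : ℝ} (hγ : 0 < γ) (hγ1 : γ ≤ 1 / 2) (hT : 0 < T) :
    ¬ NullControllableInAverage P α e lam γ T (L2sub G G0) := by
  obtain ⟨x1, hx1⟩ := hint
  obtain ⟨r, hr, hball⟩ := Metric.isOpen_iff.1 isOpen_interior x1 hx1
  have h1 : closedBall x1 (2 * (r / 4)) ⊆ G \ closure G0 := by
    refine Subset.trans ?_ (hball.trans interior_subset)
    exact closedBall_subset_ball (by linarith)
  obtain ⟨K', κ, L⟩ := exists_locData hB hG0 hG0G hGo (by positivity : 0 < r / 4) h1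
  have h2 : closedBall x1 (r / 4) ⊆ G := fun x hx =>
    (h1 (closedBall_subset_closedBall (by linarith) hx)).1
  have hi1 : Integrable α P := by
    have h3 : MemLp α 2 P := (memLp_two_iff_integrable_sq hα.aestronglyMeasurable).2 hi
    exact h3.integrable one_le_two
  exact abs_final L (DD_nonzero (by positivity) h2) hα hα0 hi1 hγ hγ1 hT

end
end Pool.Agent.R853.Avg
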